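import Pool.Agent.H83.EX.Scale
import Pool.Agent.H61.NC.Final
import Pool.Agent.H31.EX.BlockLow
import Pool.Agent.H31.EX.Scaling
import Pool.Agent.H90.NC.ArmMain

/-!
# The characteristic length

`Len δ p` is the first scale `m` at which the square of side `4 m` is crossed with probability at
least `1 - δ`.  Up to a multiple of this length the box-crossing property holds for all densities
between `1 - p` and `p`, and beyond it the percolation probability and the mean cluster size are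
computed by the one-arm probability at `1 / 2`.
-/

open MeasureTheory ProbabilityTheory unitInterval Filter Topology
open scoped ENNReal

namespace Pool.Agent.H83.EX

open Pool.Agent.H89.Perc Pool.Agent.H61.NC Pool.Agent.H31.EX

lemma half_val : ((half : I) : ℝ) = 1 / 2 := rfl

lemma Good.mono {δ δ' : ℝ} (h : δ ≤ δ') {p : I} {m : ℕ} (hg : Good δ p m) : Good δ' p m := by
  unfold Good at hg ⊢
  linarith

/-- The characteristic length. -/
noncomputable def Len (δ : ℝ) (p : I) : ℕ := sInf {m : ℕ | 1 ≤ m ∧ Good δ p m}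

lemma Len_spec {δ : ℝ} {p : I} (h : ∃ m : ℕ, 1 ≤ m ∧ Good δ p m) :
    1 ≤ Len δ p ∧ Good δ p (Len δ p) := Nat.sInf_mem h

lemma not_good_of_lt {δ : ℝ} {p : I} {m : ℕ} (hm : 1 ≤ m) (h : m < Len δ p) : ¬ Good δ p m :=
  fun hg => Nat.notMem_of_lt_sInf h ⟨hm, hg⟩

lemma le_Len {δ : ℝ} {p : I} {m₀ : ℕ} (h : ∃ m : ℕ, 1 ≤ m ∧ Good δ p m)
    (hb : ∀ m : ℕ, 1 ≤ m → m < m₀ → ¬ Good δ p m) : m₀ ≤ Len δ p := by
  by_contra hlt
  push Not at hlt
  exact hb _ (Len_spec h).1 hlt (Len_spec h).2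

lemma rsw_anti {c : ℝ} {n m : ℕ} {q : I} (h : RSWreg c n q) (hm : m ≤ n) : RSWreg c m q :=
  fun k hk hkm => h k hk (hkm.trans hm)

lemma sigma_le_self {p : I} (hp : half ≤ p) : σ p ≤ p := by
  have h : ((half : I) : ℝ) ≤ (p : ℝ) := hp
  rw [half_val] at h
  change (1 - (p : ℝ)) ≤ (p : ℝ)
  linarith

lemma sigma_le_half {p : I} (hp : half ≤ p) : σ p ≤ half := by
  have h : ((half : I) : ℝ) ≤ (p : ℝ) := hp
  change (1 - (p : ℝ)) ≤ ((half : I) : ℝ)
  rw [half_val] at h ⊢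
  linarith

/-- The box-crossing property up to a multiple of the first good scale. -/
theorem reg_of_bad : ∀ δ > (0 : ℝ), ∀ K : ℕ, ∃ c > (0 : ℝ), ∀ p : I, half ≤ p → ∀ n : ℕ, 2 ≤ n →
    (∀ m : ℕ, 1 ≤ m → m < n → ¬ Good δ p m) → ∀ q : I, σ p ≤ q → q ≤ p → RSWreg c (K * n) q := by
  intro δ hδ K
  obtain ⟨c, hc, H⟩ := rswreg_of_bad δ hδ (2 * K)
  refine ⟨c, hc, fun p hp n hn hb q h1 h2 => ?_⟩
  have h3 := H p hp (n - 1) (by omega) (fun m hm hmn => by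
    have := hb m hm (by omega)
    unfold Good at this
    linarith) q h1 h2
  refine rsw_anti h3 ?_
  obtain ⟨k, rfl⟩ : ∃ k, n = k + 2 := ⟨n - 2, by omega⟩
  have : k + 2 - 1 = k + 1 := by omega
  rw [this]
  nlinarith

/-- No scale is good at `1 / 2`. -/
theorem exists_bad_half : ∃ δ > (0 : ℝ), ∀ m : ℕ, 1 ≤ m → ¬ Good δ half m := by
  obtain ⟨δ, hδ, c, hc, H⟩ := wind_gap
  refine ⟨δ, hδ, fun m hm hg => ?_⟩
  have h1 := H half le_rfl m hm hg
  linarith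

/-- Continuity: small scales are bad near `1 / 2`. -/
theorem bad_near {δ : ℝ} (hbad : ∀ m : ℕ, 1 ≤ m → ¬ Good δ half m) (m₀ : ℕ) :
    ∃ η > (0 : ℝ), ∀ p : I, half ≤ p → (p : ℝ) < 1 / 2 + η → ∀ m : ℕ, 1 ≤ m → m < m₀ →
      ¬ Good δ p m := by
  induction m₀ with
  | zero => exact ⟨1, one_pos, fun p _ _ m _ hm => absurd hm (by omega)⟩
  | succ k ih =>
    obtain ⟨η, hη, H⟩ := ih
    by_cases hk : 1 ≤ k
    · have hl := localOn_hcross 0 (4 * (k : ℤ)) 0 (4 * (k : ℤ))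
      have h1 : Pr half {ω | HCross ω 0 (4 * k) 0 (4 * k)} < 1 - δ := by
        have := hbad k hk
        unfold Good at this
        linarith
      have h2 : ContinuousAt (PrR (eRect 0 (4 * (k : ℤ)) 0 (4 * (k : ℤ)))
          {ω | HCross ω 0 (4 * k) 0 (4 * k)}) ((half : I) : ℝ) :=
        (hasDerivAt_PrR_eq hl half).continuousAt
      rw [Pr_eq_PrR hl] at h1
      have h3 := h2.eventually_lt_const h1
      rw [Metric.eventually_nhds_iff] at h3
      obtain ⟨η', hη', h3⟩ := h3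
      refine ⟨min η η', lt_min hη hη', fun p hp hp1 m hm hmk => ?_⟩
      rcases Nat.lt_succ_iff_lt_or_eq.1 hmk with h | h
      · exact H p hp (hp1.trans_le (by linarith [min_le_left η η'])) m hm h
      · subst h
        have h4 := h3 (y := (p : ℝ)) (by
          rw [Real.dist_eq, half_val]
          have : ((half : I) : ℝ) ≤ (p : ℝ) := hp
          rw [half_val] at this
          rw [abs_of_nonneg (by linarith)]
          linarith [min_le_right η η'])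
        rw [← Pr_eq_PrR hl] at h4
        unfold Good
        linarith
    · exact ⟨η, hη, fun p hp hp1 m hm hmk => H p hp hp1 m hm (by omega)⟩

theorem theta_le_arm (p : I) (n : ℕ) : theta p ≤ arm p n :=
  le_of_tendsto (tendsto_arm p) (by
    filter_upwards [eventually_ge_atTop n] with r hr
    exact arm_antitone hr)

lemma half_le {p : I} (hp : (1 / 2 : ℝ) < p) : half ≤ p := by
  change ((half : I) : ℝ) ≤ (p : ℝ)
  rw [half_val]
  exact hp.le

/-- Above `1 / 2` there are good scales. -/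
theorem exists_good (hGL : GLTorus) {a : ℝ} (ha : a < 2) (h4 : PN (a4 half) a) {δ : ℝ}
    (hδ : 0 < δ) {p : I} (hp : (1 / 2 : ℝ) < p) (hp1 : (p : ℝ) ≤ 3 / 4) :
    ∃ m : ℕ, 1 ≤ m ∧ Good δ p m := by
  by_contra hno
  push Not at hno
  obtain ⟨c, hc, H⟩ := reg_of_bad δ hδ 1
  obtain ⟨C, hC, HC⟩ := scale_upper hGL blockLow c hc
  have hpI : half ≤ p := half_le hp
  have hR : ∀ N : ℕ, 2 ≤ N → ∀ q : I, half ≤ q → q ≤ p → RSWreg c N q := fun N hN q h1 h2 => by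
    have := H p hpI N hN (fun m hm _ => hno m hm) q ((sigma_le_half hpI).trans h1) h2
    simpa using this
  have h5 : ∀ r : ℕ, 1 ≤ r →
      ((p : ℝ) - 1 / 2) * (((64 * r : ℕ) : ℝ) ^ 2 * a4 half r) ≤ C := by
    intro r hr
    have := HC (64 * r) half p (by omega) hpI (by rw [half_val]; norm_num) hp1
      (fun q h1 h2 => hR _ (by omega) q h1 h2)
    rw [half_val, Nat.mul_div_cancel_left r (by norm_num)] at this
    exact this
  obtain ⟨n₀, hn₀⟩ := h4 ((2 - a) / 2) (by linarith)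
  have h6 : Tendsto (fun r : ℕ => (r : ℝ) ^ ((2 - a) / 2)) atTop atTop :=
    (tendsto_rpow_atTop (by linarith)).comp tendsto_natCast_atTop_atTop
  obtain ⟨r, hr1, hr2, hr3⟩ := ((h6.eventually_gt_atTop (C / ((p : ℝ) - 1 / 2))).and
    ((eventually_ge_atTop n₀).and (eventually_ge_atTop 1))).exists
  have hr0 : (0 : ℝ) < r := by exact_mod_cast hr3
  have h7 := (hn₀ r hr2).1
  have h8 := h5 r hr3
  have hx : 0 < (p : ℝ) - 1 / 2 := by linarith
  rw [div_lt_iff₀ hx] at hr1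
  have h9 : (r : ℝ) ^ 2 * (r : ℝ) ^ (-a - (2 - a) / 2) = (r : ℝ) ^ ((2 - a) / 2) := by
    rw [← Real.rpow_natCast (r : ℝ) 2, ← Real.rpow_add hr0]
    congr 1
    push_cast
    ring
  have h10 : (r : ℝ) ^ ((2 - a) / 2) ≤ (r : ℝ) ^ 2 * a4 half r := by
    rw [← h9]
    exact mul_le_mul_of_nonneg_left h7 (by positivity)
  have h11 : (r : ℝ) ^ 2 * a4 half r ≤ ((64 * r : ℕ) : ℝ) ^ 2 * a4 half r := by
    push_cast
    have h12 := a4_nonneg half r
    have h13 : (0 : ℝ) ≤ (r : ℝ) ^ 2 * a4 half r := by positivity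
    nlinarith
  have h14 : ((p : ℝ) - 1 / 2) * (r : ℝ) ^ ((2 - a) / 2) ≤ C :=
    (mul_le_mul_of_nonneg_left (h10.trans h11) hx.le).trans h8
  linarith

/-- The properties of the characteristic length. -/
theorem length_facts (hGL : GLTorus) {a : ℝ} (ha : a < 2) (h4 : PN (a4 half) a) :
    ∃ δ₀ > (0 : ℝ),
      (∀ n : ℕ, ∃ η > (0 : ℝ), ∀ p : I, (1 / 2 : ℝ) < p → (p : ℝ) < 1 / 2 + η →
        n ≤ Len δ₀ p ∧ 1 ≤ Len δ₀ p ∧ Good δ₀ p (Len δ₀ p)) ∧
      (∀ K : ℕ, ∃ c > (0 : ℝ), ∃ η > (0 : ℝ), ∀ p : I, (1 / 2 : ℝ) < p → (p : ℝ) < 1 / 2 + η →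
        ∀ q : I, σ p ≤ q → q ≤ p → RSWreg c (K * Len δ₀ p) q) ∧
      (∀ ε > (0 : ℝ), ∃ C > (0 : ℝ), ∃ η > (0 : ℝ), ∀ p : I, (1 / 2 : ℝ) < p →
        (p : ℝ) < 1 / 2 + η → ((p : ℝ) - 1 / 2) * (Len δ₀ p : ℝ) ^ ((2 - a) - ε) ≤ C) ∧
      (∀ ε > (0 : ℝ), ∃ c > (0 : ℝ), ∃ η > (0 : ℝ), ∀ p : I, (1 / 2 : ℝ) < p →
        (p : ℝ) < 1 / 2 + η → c ≤ ((p : ℝ) - 1 / 2) * (Len δ₀ p : ℝ) ^ ((2 - a) + ε)) ∧
      (∃ c > (0 : ℝ), ∃ C > (0 : ℝ), ∃ η > (0 : ℝ), ∀ p : I, (1 / 2 : ℝ) < p →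
        (p : ℝ) < 1 / 2 + η → c * arm half (Len δ₀ p) ≤ theta p ∧
          theta p ≤ C * arm half (Len δ₀ p)) ∧
      (∃ c > (0 : ℝ), ∃ C > (0 : ℝ), ∃ η > (0 : ℝ), ∀ p : I, (1 / 2 : ℝ) < p →
        (p : ℝ) < 1 / 2 + η →
        ENNReal.ofReal (c * ((Len δ₀ p : ℝ) ^ 2 * arm half (Len δ₀ p) ^ 2)) ≤
          Pool.Agent.H85.Gamma.sigma (σ p) ∧
        Pool.Agent.H85.Gamma.sigma (σ p) ≤
          ENNReal.ofReal (C * ((Len δ₀ p : ℝ) ^ 2 * arm half (Len δ₀ p) ^ 2))) := by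
  obtain ⟨δ₁, hδ₁, c₁, hc₁, C₁, hC₁, H1⟩ := good_scale
  obtain ⟨δ₂, hδ₂, c₂, hc₂, H2⟩ := wind_gap
  obtain ⟨δ₃, hδ₃, H3⟩ := exists_bad_half
  obtain ⟨δ₀, hδ₀⟩ : ∃ δ₀ : ℝ, δ₀ = min δ₁ (min δ₂ δ₃) := ⟨_, rfl⟩
  have h0 : 0 < δ₀ := by rw [hδ₀]; exact lt_min hδ₁ (lt_min hδ₂ hδ₃)
  have h01 : δ₀ ≤ δ₁ := by rw [hδ₀]; exact min_le_left _ _
  have h02 : δ₀ ≤ δ₂ := by rw [hδ₀]; exact (min_le_right _ _).trans (min_le_left _ _)
  have h03 : δ₀ ≤ δ₃ := by rw [hδ₀]; exact (min_le_right _ _).trans (min_le_right _ _)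
  have hbad : ∀ m : ℕ, 1 ≤ m → ¬ Good δ₀ half m := fun m hm hg => H3 m hm (hg.mono h03)
  -- large length near `1 / 2`
  have hlen : ∀ n : ℕ, ∃ η > (0 : ℝ), η ≤ 1 / 4 ∧ ∀ p : I, (1 / 2 : ℝ) < p →
      (p : ℝ) < 1 / 2 + η → n ≤ Len δ₀ p ∧ 1 ≤ Len δ₀ p ∧ Good δ₀ p (Len δ₀ p) := by
    intro n
    obtain ⟨η, hη, Hn⟩ := bad_near hbad n
    refine ⟨min η (1 / 4), lt_min hη (by norm_num), min_le_right _ _, fun p hp hp1 => ?_⟩
    have hp2 : (p : ℝ) < 1 / 2 + η := hp1.trans_le (by linarith [min_le_left η (1 / 4 : ℝ)])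
    have hp3 : (p : ℝ) ≤ 3 / 4 := hp1.le.trans (by linarith [min_le_right η (1 / 4 : ℝ)])
    have hex := exists_good hGL ha h4 h0 hp hp3
    exact ⟨le_Len hex fun m hm hmn => Hn p (half_le hp) hp2 m hm hmn, Len_spec hex⟩
  -- the box-crossing regime
  have hreg : ∀ K : ℕ, ∃ c > (0 : ℝ), ∀ p : I, (1 / 2 : ℝ) < p →
      2 ≤ Len δ₀ p → ∀ q : I, σ p ≤ q → q ≤ p → RSWreg c (K * Len δ₀ p) q := by
    intro K
    obtain ⟨c, hc, H⟩ := reg_of_bad δ₀ h0 K
    exact ⟨c, hc, fun p hp h2 => H p (half_le hp) _ h2 fun m hm hml => not_good_of_lt hm hml⟩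
  refine ⟨δ₀, h0, fun n => ?_, fun K => ?_, fun ε hε => ?_, fun ε hε => ?_, ?_, ?_⟩
  · obtain ⟨η, hη, -, H⟩ := hlen n
    exact ⟨η, hη, H⟩
  · obtain ⟨c, hc, H⟩ := hreg K
    obtain ⟨η, hη, -, H'⟩ := hlen 2
    exact ⟨c, hc, η, hη, fun p hp hp1 => H p hp (H' p hp hp1).1⟩
  · -- upper bound for the length
    obtain ⟨c, hc, HR⟩ := hreg 64
    obtain ⟨C, hC, HC⟩ := scale_upper hGL blockLow c hc
    obtain ⟨n₀, hn₀⟩ := h4 ε hε
    obtain ⟨η, hη, hη4, HL⟩ := hlen (n₀ + 2)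
    refine ⟨C, hC, η, hη, fun p hp hp1 => ?_⟩
    obtain ⟨hL1, hL2, -⟩ := HL p hp hp1
    have hpI := half_le hp
    obtain ⟨L, hL⟩ : ∃ L : ℕ, L = Len δ₀ p := ⟨_, rfl⟩
    have HRp := HR p hp (by omega)
    rw [← hL] at hL1 hL2 HRp ⊢
    have hL0 : (0 : ℝ) < L := by exact_mod_cast hL2
    have h5 := HC (64 * L) half p (by omega) hpI (by rw [half_val]; norm_num) (by linarith)
      (fun q h1 h2 => HRp q ((sigma_le_half hpI).trans h1) h2)
    rw [half_val, Nat.mul_div_cancel_left L (by norm_num)] at h5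
    have h7 := (hn₀ L (by omega)).1
    have hx : 0 < (p : ℝ) - 1 / 2 := by linarith
    have h9 : (L : ℝ) ^ 2 * (L : ℝ) ^ (-a - ε) = (L : ℝ) ^ ((2 - a) - ε) := by
      rw [← Real.rpow_natCast (L : ℝ) 2, ← Real.rpow_add hL0]
      congr 1
      push_cast
      ring
    refine le_trans (mul_le_mul_of_nonneg_left ?_ hx.le) h5
    rw [← h9]
    refine mul_le_mul ?_ h7 (by positivity) (by positivity)
    push_cast
    nlinarith [sq_nonneg (L : ℝ)]
  · -- lower bound for the length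
    obtain ⟨c, hc, HR⟩ := hreg 14
    obtain ⟨C, hC, HC⟩ := scale_lower hGL blockLow c hc
    obtain ⟨n₀, hn₀⟩ := h4 ε hε
    obtain ⟨η, hη, hη4, HL⟩ := hlen (n₀ + 5)
    refine ⟨c₂ / (C * (196 * (6 : ℝ) ^ (-a + ε))), by positivity, η, hη, fun p hp hp1 => ?_⟩
    obtain ⟨hL1, hL2, hL3⟩ := HL p hp hp1
    have hpI := half_le hp
    obtain ⟨L, hL⟩ : ∃ L : ℕ, L = Len δ₀ p := ⟨_, rfl⟩
    have HRp := HR p hp (by omega)
    rw [← hL] at hL1 hL2 hL3 HRp ⊢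
    have hL0 : (0 : ℝ) < L := by exact_mod_cast hL2
    have h5 := HC (14 * L) (6 * L) half p (by omega) (by omega) (by omega) hpI
      (by rw [half_val]; norm_num) (by linarith)
      (fun q h1 h2 => HRp q ((sigma_le_half hpI).trans h1) h2)
    have h6 := H2 p hpI L hL2 (hL3.mono h02)
    have h7 := (hn₀ (6 * L) (by omega)).2
    have hx : 0 < (p : ℝ) - 1 / 2 := by linarith
    have h8 : ((14 * L : ℕ) : ℝ) ^ 2 * a4 half (6 * L) ≤
        196 * (6 : ℝ) ^ (-a + ε) * (L : ℝ) ^ ((2 - a) + ε) := by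
      have e1 : ((6 * L : ℕ) : ℝ) ^ (-a + ε) = (6 : ℝ) ^ (-a + ε) * (L : ℝ) ^ (-a + ε) := by
        push_cast
        rw [Real.mul_rpow (by norm_num) hL0.le]
      have e2 : (L : ℝ) ^ 2 * (L : ℝ) ^ (-a + ε) = (L : ℝ) ^ ((2 - a) + ε) := by
        rw [← Real.rpow_natCast (L : ℝ) 2, ← Real.rpow_add hL0]
        congr 1
        push_cast
        ring
      calc ((14 * L : ℕ) : ℝ) ^ 2 * a4 half (6 * L)
          ≤ ((14 * L : ℕ) : ℝ) ^ 2 * ((6 * L : ℕ) : ℝ) ^ (-a + ε) :=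
            mul_le_mul_of_nonneg_left h7 (by positivity)
        _ = 196 * (6 : ℝ) ^ (-a + ε) * ((L : ℝ) ^ 2 * (L : ℝ) ^ (-a + ε)) := by
            rw [e1]; push_cast; ring
        _ = _ := by rw [e2]
    have h9 : c₂ ≤ C * (((p : ℝ) - 1 / 2) *
        (196 * (6 : ℝ) ^ (-a + ε) * (L : ℝ) ^ ((2 - a) + ε))) := by
      rw [half_val] at h5
      refine h6.trans (h5.trans ?_)
      gcongr
    rw [div_le_iff₀ (by positivity)]
    calc c₂ ≤ _ := h9
      _ = _ := by ring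
  · -- the percolation probability
    obtain ⟨c, hc, HR⟩ := hreg 1
    obtain ⟨K, hK, HK⟩ := arm_stability_torus hGL blockLow c hc
    obtain ⟨η, hη, hη4, HL⟩ := hlen 2
    refine ⟨c₁, hc₁, K, hK, η, hη, fun p hp hp1 => ?_⟩
    obtain ⟨hL1, hL2, hL3⟩ := HL p hp hp1
    have hpI := half_le hp
    have HRp := HR p hp hL1
    rw [one_mul] at HRp
    constructor
    · have h5 := (H1 p hpI _ hL2 (hL3.mono h01)).1
      exact (mul_le_mul_of_nonneg_left (arm_mono_param _ hpI) hc₁.le).trans h5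
    · exact (theta_le_arm p (Len δ₀ p)).trans (HK _ half p hpI (by rw [half_val]; norm_num)
        (by linarith) fun q h1 h2 => HRp q ((sigma_le_half hpI).trans h1) h2)
  · -- the mean cluster size
    obtain ⟨c, hc, HR⟩ := hreg 9
    obtain ⟨K, hK, HK⟩ := arm_stability_torus hGL blockLow c hc
    obtain ⟨c', hc', HT⟩ := Pool.Agent.H85.Gamma.trunc_lower
    obtain ⟨c'', hc'', HE⟩ := arm_ext
    obtain ⟨η, hη, hη4, HL⟩ := hlen 2
    refine ⟨c' * (c'' / 3 / K) ^ 2, by positivity, C₁, hC₁, η, hη, fun p hp hp1 => ?_⟩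
    obtain ⟨hL1, hL2, hL3⟩ := HL p hp hp1
    have hpI := half_le hp
    have HRp := HR p hp hL1
    obtain ⟨L, hL⟩ : ∃ L : ℕ, L = Len δ₀ p := ⟨_, rfl⟩
    rw [← hL] at hL1 hL2 hL3 HRp ⊢
    have hL0 : (0 : ℝ) < L := by exact_mod_cast hL2
    constructor
    · refine (ENNReal.ofReal_le_ofReal ?_).trans
        (Pool.Agent.H85.Gamma.trunc_le_sigma (σ p) (Pool.Agent.H85.Gamma.bx (2 * L)) (5 * L + 4))
      have hσv : ((σ p : I) : ℝ) = 1 - (p : ℝ) := rfl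
      refine le_trans ?_ (HT L hL2 (σ p) (by rw [hσv]; linarith))
      have h5 := HK (5 * L + 4) (σ p) half (sigma_le_half hpI) (by rw [hσv]; linarith)
        (by rw [half_val]; norm_num)
        (fun q h1 h2 => rsw_anti (HRp q h1 (h2.trans hpI)) (by omega))
      have h6 := HE half le_rfl L (5 * L + 4) hL2 (by omega)
      have h7 : (1 / 3 : ℝ) ≤ Real.sqrt ((L : ℝ) / ((5 * L + 4 : ℕ) : ℝ)) := by
        apply Real.le_sqrt_of_sq_le
        rw [le_div_iff₀ (by positivity)]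
        push_cast
        have : (1 : ℝ) ≤ L := by exact_mod_cast hL2
        linarith
      have h8 := arm_nonneg (p := half) (r := L)
      have h9 : c'' / 3 * arm half L ≤ K * arm (σ p) (5 * L + 4) := by
        refine le_trans ?_ (h6.trans h5)
        have : c'' * (1 / 3) ≤ c'' * Real.sqrt ((L : ℝ) / ((5 * L + 4 : ℕ) : ℝ)) :=
          mul_le_mul_of_nonneg_left h7 hc''.le
        calc c'' / 3 * arm half L = c'' * (1 / 3) * arm half L := by ring
          _ ≤ _ := mul_le_mul_of_nonneg_right this h8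
      have h10 : c'' / 3 / K * arm half L ≤ arm (σ p) (5 * L + 4) := by
        rw [div_mul_eq_mul_div, div_le_iff₀ hK]
        linarith
      calc c' * (c'' / 3 / K) ^ 2 * ((L : ℝ) ^ 2 * arm half L ^ 2)
          = c' * (L : ℝ) ^ 2 * (c'' / 3 / K * arm half L) ^ 2 := by ring
        _ ≤ c' * (L : ℝ) ^ 2 * arm (σ p) (5 * L + 4) ^ 2 := by gcongr
    · have h5 := (H1 p hpI _ hL2 (hL3.mono h01)).2
      rw [← mul_assoc]
      exact h5

/-- The exponents `β` and `γ` from the one-arm and four-arm exponents at `1 / 2`. -/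
theorem exponents_of (hGL : GLTorus) {a b : ℝ} (ha : a < 2) (hb : 0 < b)
    (h4 : PN (a4 half) a) (h1 : PN (arm half) b) :
    HasBeta (b / (2 - a)) ∧ HasGamma ((2 - 2 * b) / (2 - a)) := by
  obtain ⟨δ₀, -, -, -, hup, hlow, hθ, hσ⟩ := length_facts hGL ha h4
  have hL := length_exponent (L := Len δ₀) (s := 2 - a) (by linarith) hup hlow
  exact ⟨beta_of_scaling hb (by linarith) h1 hL hθ, gamma_of_scaling hb (by linarith) h1 hL hσ⟩

/-- The exponents of critical bond percolation, conditional on the arm exponents at `1 / 2` and on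
the gluing lemma. -/
theorem exact_exponents_of (hGL : GLTorus) (h4 : PN (a4 half) (5 / 4))
    (h1 : PN (arm half) (5 / 48)) : HasBeta (5 / 36) ∧ HasGamma (43 / 18) := by
  have h := exponents_of hGL (by norm_num) (by norm_num) h4 h1
  norm_num at h
  exact h

end Pool.Agent.H83.EX
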