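import Pool.Agent.H83.EX.SqrtTrick
import Pool.Agent.H83.EX.Glue2

/-! # Doubling the length of a rectangle -/

open MeasureTheory ProbabilityTheory unitInterval

namespace Pool.Agent.H83.EX

open Pool.Agent.H89.Perc

/-- Crossing from the left side to a segment of the right side. -/
private def dblA (w : ℕ) (c d : ℤ) (s j : ℕ) : Set Config :=
  {ω | ∃ u v : Vert, u.1 = 0 ∧ v.1 = w ∧ c + j * (2 * s + 1) ≤ v.2 ∧
    v.2 ≤ c + j * (2 * s + 1) + 2 * s ∧ Conn ω (rect 0 w c d) u v}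

private lemma dblA_local (w : ℕ) (c d : ℤ) (s j : ℕ) :
    LocalOn (eRect 0 w c d) (dblA w c d s j) := by
  rintro ω ω' h ⟨u, v, h1, h2, h3, h4, h5⟩
  exact ⟨u, v, h1, h2, h3, h4, Conn.congr (fun e he _ => h e (mem_eRect.2 he)) h5⟩

private lemma dblA_incr (w : ℕ) (c d : ℤ) (s j : ℕ) : Incr (dblA w c d s j) := by
  rintro ω ω' h ⟨u, v, h1, h2, h3, h4, h5⟩
  exact ⟨u, v, h1, h2, h3, h4, h5.mono le_rfl h⟩

private lemma dbl_cover {w : ℕ} {c d : ℤ} {s k : ℕ} (hc : d - c < k * (2 * s + 1)) :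
    {ω : Config | HCross ω 0 w c d} ⊆ ⋃ j ∈ Finset.range k, dblA w c d s j := by
  rintro ω ⟨u, v, hu, hv, h⟩
  have hv2 := h.mem_right
  simp only [rect, Set.mem_ofPred_eq] at hv2
  obtain ⟨-, -, h3, h4⟩ := hv2
  have hpos : (0 : ℤ) < 2 * s + 1 := by positivity
  have hq0 : 0 ≤ (v.2 - c) / (2 * s + 1) := Int.ediv_nonneg (by omega) hpos.le
  have hq1 : (v.2 - c) / (2 * s + 1) < k := by
    rw [Int.ediv_lt_iff_lt_mul hpos]
    linarith
  obtain ⟨j, hj⟩ := Int.eq_ofNat_of_zero_le hq0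
  have hdm := Int.emod_add_mul_ediv (v.2 - c) (2 * s + 1)
  have hm0 := Int.emod_nonneg (v.2 - c) hpos.ne'
  have hm1 := Int.emod_lt_of_pos (v.2 - c) hpos
  rw [hj] at hdm hq1
  simp only [Set.mem_iUnion]
  refine ⟨j, Finset.mem_range.2 (by exact_mod_cast hq1), u, v, hu, hv, ?_, ?_, h⟩
  · have : (2 * (s : ℤ) + 1) * (j : ℤ) = (j : ℤ) * (2 * s + 1) := by ring
    linarith
  · have : (2 * (s : ℤ) + 1) * (j : ℤ) = (j : ℤ) * (2 * s + 1) := by ring
    linarith

theorem double_cross {p : I} {w : ℕ} {c d : ℤ} {s r k : ℕ} (hs : s < r) (hrw : r ≤ w)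
    (hcd : c ≤ d) (hk : 1 ≤ k) (hc : d - c < k * (2 * s + 1)) {δ : ℝ} (hδ : 0 ≤ δ)
    (h : 1 - δ ≤ Pr p {ω | HCross ω 0 w c d}) :
    1 - 2 * δ ^ ((1 : ℝ) / k) - Pr p {ω | dual ω ∈ DArm s r} ≤
      Pr p {ω | HCross ω 0 (2 * w) (c - r) (d + r)} := by
  obtain ⟨j, -, hj⟩ := sqrt_trick (p := p) (Finset.range k)
    (Finset.nonempty_range_iff.2 (by omega)) (fun j => dblA w c d s j) (fun _ => eRect 0 w c d)
    (fun j _ => dblA_local w c d s j) (fun j _ => dblA_incr w c d s j) (dbl_cover hc) hδ h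
  rw [Finset.card_range] at hj
  set A := dblA w c d s j with hA
  have hAl : LocalOn (eRect 0 w c d) A := dblA_local w c d s j
  set z : Vert := ((w : ℤ), min (c + j * (2 * s + 1) + s) d) with hz
  have hz1 : z.1 = w := rfl
  have hj0 : (0 : ℤ) ≤ (j : ℤ) * (2 * s + 1) := by positivity
  have hz2 : c ≤ z.2 ∧ z.2 ≤ d ∧ z.2 ≤ c + j * (2 * s + 1) + s ∧
      (z.2 = c + j * (2 * s + 1) + s ∨ z.2 = d) := by
    have h1 : z.2 = min (c + j * (2 * s + 1) + s) d := rfl
    rw [h1]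
    refine ⟨le_min (by omega) hcd, min_le_right _ _, min_le_left _ _, min_choice _ _⟩
  obtain ⟨hz3, hz4, hz5, hz6⟩ := hz2
  set B : Set Config := {ω | (fun e => ω (reflX (2 * w) e)) ∈ Aᶜ} with hB
  have hPB : Pr p B = Pr p Aᶜ := Pr_comp hAl.compl (reflX_injective (2 * w)).injOn
  have hPA : Pr p Aᶜ = 1 - Pr p A := Pr_compl hAl
  set C : Set Config := {ω | dual (fun e => ω (shiftE z e)) ∈ DArm s r} with hC
  have hPC : Pr p C = Pr p {ω | dual ω ∈ DArm s r} := Pr_dArm_shift p z s r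
  have hcov : (Set.univ : Set Config) ⊆
      (({ω | HCross ω 0 (2 * w) (c - r) (d + r)} ∪ Aᶜ) ∪ B) ∪ C := by
    intro ω _
    by_contra hno
    simp only [Set.mem_union, not_or] at hno
    obtain ⟨⟨⟨n1, n2⟩, n3⟩, n4⟩ := hno
    have m2 : ω ∈ A := not_not.1 n2
    have m3 : (fun e => ω (reflX (2 * w) e)) ∈ A := not_not.1 n3
    have m4 : dual (fun e => ω (shiftE z e)) ∉ DArm s r := n4
    obtain ⟨u, v, hu, hv, hv1, hv2, hcon⟩ := m2
    obtain ⟨u', v', hu', hv', hv1', hv2', hcon'⟩ := m3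
    rw [conn_reflX] at hcon'
    have hvr := hcon.mem_right
    have hvr' := hcon'.mem_right
    have hur := hcon.mem_left
    have hur' := hcon'.mem_left
    simp only [rect, Set.mem_ofPred_eq] at hvr hvr' hur hur'
    have hvb : v ∈ ball z s := by
      rw [mem_ball]
      omega
    have hvb' : ((2 * (w : ℤ) - v'.1, v'.2) : Vert) ∈ ball z s := by
      rw [mem_ball]
      dsimp only
      omega
    have hsr : ball z s ⊆ ball z r := by
      intro x hx
      rw [mem_ball] at hx ⊢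
      omega
    obtain ⟨x₁, hx₁, hx₁c⟩ := hcon.symm.to_sphere (hsr hvb) (by
      by_cases hub : u ∈ ball z r
      · right
        refine ⟨hub, Or.inl ?_⟩
        rw [mem_ball] at hub
        omega
      · exact Or.inl hub)
    obtain ⟨x₂, hx₂, hx₂c⟩ := hcon'.symm.to_sphere (hsr hvb') (by
      by_cases hub : ((2 * (w : ℤ) - u'.1, u'.2) : Vert) ∈ ball z r
      · right
        refine ⟨hub, Or.inr (Or.inl ?_)⟩
        rw [mem_ball] at hub
        dsimp only at hub ⊢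
        omega
      · exact Or.inl hub)
    have hg := glue2_shift hs z hvb hvb' hx₁ hx₂ (hx₁c.mono_set Set.inter_subset_right)
      (hx₂c.mono_set Set.inter_subset_right) m4
    refine n1 ⟨u, (2 * (w : ℤ) - u'.1, u'.2), hu, by dsimp only; omega, ?_⟩
    refine (hcon.mono_set ?_).trans ((hg.mono_set ?_).trans (hcon'.symm.mono_set ?_))
    · intro x hx
      simp only [rect, Set.mem_ofPred_eq] at hx ⊢
      omega
    · intro x hx
      rw [mem_ball] at hx
      simp only [rect, Set.mem_ofPred_eq]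
      omega
    · intro x hx
      simp only [rect, Set.mem_ofPred_eq] at hx ⊢
      omega
  have h1 : (1 : ℝ) ≤ Pr p ((({ω | HCross ω 0 (2 * w) (c - r) (d + r)} ∪ Aᶜ) ∪ B) ∪ C) := by
    rw [← Pr_univ (p := p)]
    exact Pr_mono hcov
  have h2 : Pr p ((({ω | HCross ω 0 (2 * w) (c - r) (d + r)} ∪ Aᶜ) ∪ B) ∪ C) ≤
      Pr p {ω | HCross ω 0 (2 * w) (c - r) (d + r)} + Pr p Aᶜ + Pr p B + Pr p C :=
    Pr_union_le.trans (by
      gcongr
      exact Pr_union_le.trans (by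
        gcongr
        exact Pr_union_le))
  have hj' : 1 - δ ^ ((1 : ℝ) / k) ≤ Pr p A := hj
  rw [hPB, hPA, hPC] at h2
  linarith

end Pool.Agent.H83.EX
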