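import Pool.Agent.H89.Perc.Decay

/-! # Annulus crossings of thick annuli are unlikely -/

open MeasureTheory ProbabilityTheory unitInterval

namespace Pool.Agent.H83.EX

open Pool.Agent.H89.Perc

private theorem ds_armBox_subset_ann {s a r R : ℕ} (hsa : s ≤ a) (hs : a < r) (hr : r ≤ R) :
    ArmBox 0 s R ⊆ Ann a r := by
  rintro ω ⟨v, hv, u, hu, hc⟩
  have hva : v ∈ ball 0 a := ball_subset_ball hsa hv
  have hvr : v ∈ ball 0 r := ball_subset_ball (hsa.trans hs.le) hv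
  -- path to the sphere of radius `r`
  have h1 : ∃ x ∈ sphere 0 r, Conn ω (ball 0 R ∩ ball 0 r) v x := by
    refine hc.to_sphere hvr ?_
    obtain ⟨hb, h⟩ := hu
    by_cases h2 : u ∈ ball 0 r
    · refine Or.inr ⟨h2, ?_⟩
      simp only [mem_ball, Prod.fst_zero, Prod.snd_zero] at hb h h2 ⊢
      omega
    · exact Or.inl h2
  obtain ⟨x, hx, hc'⟩ := h1
  have hxs : x ∉ ball 0 a := by
    intro hxs
    obtain ⟨_, h⟩ := hx
    simp only [mem_ball, Prod.fst_zero, Prod.snd_zero] at hxs h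
    omega
  obtain ⟨w, w', hw, _, hst, hl⟩ := hc'.exists_last (T := ball 0 a) hva hxs
  refine ⟨w', ?_, x, hx, hl.mono_set ?_⟩
  · have h2 := hst.fst_le
    have h3 := hst.snd_le
    simp only [mem_ball, Prod.fst_zero, Prod.snd_zero] at hw ⊢
    push_cast
    omega
  · exact fun y hy => ⟨hy.1.2, hy.2⟩

/-- Intersections of the annulus events at scales `16 ^ j * s`. -/
private def dsInter (s : ℕ) : ℕ → Set Config
  | 0 => Set.univ
  | n + 1 => dsInter s n ∩ Ann (16 ^ n * s) (16 ^ (n + 1) * s)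

private lemma ds_localOn (s n : ℕ) : LocalOn (eBall (16 ^ n * s)) (dsInter s n) := by
  classical
  induction n with
  | zero => exact fun _ _ _ _ => Set.mem_univ _
  | succ n ih =>
    have h1 : (16 : ℕ) ^ n * s ≤ 16 ^ (n + 1) * s :=
      Nat.mul_le_mul_right s (Nat.pow_le_pow_right (by norm_num) (Nat.le_succ n))
    exact (ih.mono (eBall_subset h1)).inter ((localOn_ann _ _).mono Finset.sdiff_subset)

private lemma ds_subset {s R : ℕ} (hs : 1 ≤ s) (n : ℕ) (h : 16 ^ n * s ≤ R) :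
    ArmBox 0 s R ⊆ dsInter s n := by
  induction n with
  | zero => exact Set.subset_univ _
  | succ n ih =>
    have h0 : (16 : ℕ) ^ n < 16 ^ (n + 1) :=
      Nat.pow_lt_pow_right (by norm_num) (Nat.lt_succ_self n)
    have h1 : (16 : ℕ) ^ n * s < 16 ^ (n + 1) * s := Nat.mul_lt_mul_of_pos_right h0 hs
    have h2 : s ≤ 16 ^ n * s := Nat.le_mul_of_pos_left s (Nat.pow_pos (by norm_num))
    exact Set.subset_inter (ih (h1.le.trans h)) (ds_armBox_subset_ann h2 h1 h)

theorem armBox_small : ∀ η > (0 : ℝ), ∃ K : ℕ, 1 ≤ K ∧ ∀ s r : ℕ, 1 ≤ s → K * s ≤ r →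
    Pr half (ArmBox 0 s r) ≤ η := by
  classical
  intro η hη
  obtain ⟨c, hc, h⟩ := armBox_le
  have hc1 : c ≤ 1 := by
    have h1 := h 1 8 le_rfl (by norm_num)
    have h2 : 0 ≤ Pr half (ArmBox 0 1 8) := Pr_nonneg
    linarith
  set q : ℝ := 1 - c / 2 with hq
  have hq0 : 0 < q := by linarith
  have hq1 : q < 1 := by linarith
  obtain ⟨n, hn⟩ := exists_pow_lt_of_lt_one hη hq1
  refine ⟨16 ^ n, Nat.one_le_pow _ _ (by norm_num), fun s r hs hr => ?_⟩
  have key : ∀ n : ℕ, Pr half (dsInter s n) ≤ q ^ n := by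
    intro n
    induction n with
    | zero => rw [pow_zero]; exact Pr_le_one
    | succ n ih =>
      have h1 : Pr half (dsInter s (n + 1)) =
          Pr half (dsInter s n) * Pr half (Ann (16 ^ n * s) (16 ^ (n + 1) * s)) :=
        Pr_inter_of_disjoint (ds_localOn s n) (localOn_ann _ _) Finset.disjoint_sdiff
      have h2 : Pr half (Ann (16 ^ n * s) (16 ^ (n + 1) * s)) ≤ q := by
        have h3 : 4 * (16 ^ n * s + 1 + 1) ≤ 16 ^ (n + 1) * s := by
          have h5 : 1 ≤ 16 ^ n * s := Nat.mul_pos (Nat.pow_pos (by norm_num)) hs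
          have h6 : 16 ^ (n + 1) * s = 16 * (16 ^ n * s) := by rw [pow_succ]; ring
          rw [h6]
          omega
        have h4 := h (16 ^ n * s + 1) (16 ^ (n + 1) * s) (by omega) h3
        have h5 : Pr half (Ann (16 ^ n * s) (16 ^ (n + 1) * s)) ≤
            Pr half (ArmBox 0 (16 ^ n * s + 1) (16 ^ (n + 1) * s)) :=
          Pr_mono (ann_subset_armBox _ _)
        linarith
      rw [h1, pow_succ]
      exact mul_le_mul ih h2 Pr_nonneg (pow_nonneg hq0.le n)
  exact ((Pr_mono (ds_subset hs n hr)).trans (key n)).trans hn.le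

private theorem ds_DArm_subset {s r : ℕ} (hr : 1 ≤ r) (hsr : s + 2 ≤ r) :
    DArm s r ⊆ ArmBox 0 (s + 1) (r - 1) := by
  rintro ω ⟨φ, φ', h1, h2, h3, hc⟩
  simp only [rect, Set.mem_ofPred_eq] at h1 h2
  have hφ : φ ∈ ball 0 (s + 1) := by
    simp only [mem_ball, Prod.fst_zero, Prod.snd_zero]
    push_cast
    omega
  have hφr : φ ∈ ball 0 (r - 1) := ball_subset_ball (by omega) hφ
  obtain ⟨x, hx, hcx⟩ := hc.to_sphere (v := 0) (r := r - 1) hφr (by
    by_cases h : φ' ∈ ball 0 (r - 1)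
    · right
      refine ⟨h, ?_⟩
      simp only [mem_ball, Prod.fst_zero, Prod.snd_zero] at h ⊢
      push_cast [Nat.cast_sub hr] at h ⊢
      omega
    · exact Or.inl h)
  exact ⟨φ, hφ, x, hx, hcx.mono_set Set.inter_subset_right⟩

theorem dArm_small : ∀ η > (0 : ℝ), ∃ K : ℕ, 1 ≤ K ∧ ∀ s r : ℕ, 1 ≤ s → K * s ≤ r →
    ∀ p : I, half ≤ p → Pr p {ω | dual ω ∈ DArm s r} ≤ η := by
  intro η hη
  obtain ⟨K, hK, hsmall⟩ := armBox_small η hη
  refine ⟨2 * K + 1, by omega, fun s r hs hr p hp => ?_⟩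
  have h1 : 2 * (K * s) + s ≤ r := by
    calc 2 * (K * s) + s = (2 * K + 1) * s := by ring
      _ ≤ r := hr
  have h2 : K ≤ K * s := Nat.le_mul_of_pos_right K hs
  have h3 : s ≤ K * s := Nat.le_mul_of_pos_left s hK
  have hr1 : 1 ≤ r := by omega
  have h4 : K * (s + 1) ≤ r - 1 := by
    rw [Nat.mul_add, Nat.mul_one]
    omega
  rw [Pr_dual (decay_localOn_DArm s r)]
  have hσ : σ p ≤ half := by
    have h5 : ((half : I) : ℝ) ≤ p := hp
    have h6 : ((half : I) : ℝ) = 1 / 2 := by norm_num [half]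
    rw [← Subtype.coe_le_coe, unitInterval.coe_symm_eq]
    linarith
  calc Pr (σ p) (DArm s r) ≤ Pr (σ p) (ArmBox 0 (s + 1) (r - 1)) :=
        Pr_mono (ds_DArm_subset hr1 (by omega))
    _ ≤ Pr half (ArmBox 0 (s + 1) (r - 1)) :=
        Pr_mono_param (localOn_armBox 0 (s + 1) (r - 1)) (incr_armBox 0 (s + 1) (r - 1)) hσ
    _ ≤ η := hsmall (s + 1) (r - 1) (by omega) h4

end Pool.Agent.H83.EX
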