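import Pool.Agent.H83.EX.Exit
import Pool.Agent.H26.HP.Bad
import Pool.Agent.H26.ST.Final
import Pool.Agent.H29.Sep.QM
import Pool.Agent.H47.EX.UpA4
import Pool.Agent.H57.EX.Main
import Pool.Agent.H59.EX.Iter
import Pool.Agent.H89.EX.Exact

/-!
# Critical exponents of bond percolation on the square lattice: assembly of the inputs
-/

open unitInterval

namespace Pool.Agent.H83.EX

theorem glTorus : Pool.Agent.H61.NC.GLTorus :=
  Pool.Agent.H29.Sep.glTorus Pool.Agent.H26.HP.badIn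
    (Pool.Agent.H57.EX.glt Pool.Agent.H26.HP.badIn Pool.Agent.H26.HP.badOut)
    (Pool.Agent.H59.EX.regA4 Pool.Agent.H26.HP.badIn) Pool.Agent.H26.ST.sepTorus_holds

theorem pn_four : Pool.Agent.H31.EX.PN (Pool.Agent.H61.NC.a4 Pool.Agent.H89.Perc.half) (5 / 4) :=
  Pool.Agent.H89.EX.a4_PN Pool.Agent.H47.EX.upA4

theorem pn_one : Pool.Agent.H31.EX.PN (Pool.Agent.H89.Perc.arm Pool.Agent.H89.Perc.half) (5 / 48) :=
  Pool.Agent.H89.EX.arm_PN

end Pool.Agent.H83.EX
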