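import Pool.Agent.H89.Perc.RSW
import Pool.Agent.H89.Perc.Circuit

/-!
# Crossing probabilities close to one
-/

open MeasureTheory ProbabilityTheory unitInterval

namespace Pool.Agent.H83.EX

open Pool.Agent.H89.Perc

theorem incr_rkY (n m : ℕ) (B : Finset Edge) (T : Set Vert) : Incr (rkY n m B T) := by
  rintro ω ω' h ⟨w, t, hw, ht, hc⟩
  refine ⟨w, t, hw, ht, hc.mono le_rfl ?_⟩
  intro e he
  by_cases heB : e ∈ B
  · simp [mask, heB] at he
  · rw [mask_of_notMem heB] at he ⊢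
    exact h e he

/-- The lemma of Russo, Seymour and Welsh with the square-root trick. -/
theorem rsw_key_near {p : I} {m n : ℕ} (hn : 1 ≤ n) (hmn : n ≤ m) :
    Pr p {ω | VCross ω 0 n 0 n} * (1 - Real.sqrt (1 - Pr p {ω | HCross ω 0 m 0 (2 * n)})) ≤
      Pr p (XEvent m n) := by
  classical
  set DF : Finset Vert := Finset.Icc (-1 : ℤ) n ×ˢ Finset.Icc (-1 : ℤ) n with hDF
  set good : Finset (Finset Vert) := DF.powerset.filter (fun S => RkGood n (↑S : Set Vert))
    with hgood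
  set E : Finset Vert → Set Config := fun S => {ω | rkZ n ω = (↑S : Set Vert)} with hE
  set Y : Finset Vert → Set Config := fun S => rkY n m (rkB n ↑S) (rkT n ↑S) with hY
  have hlE : ∀ S : Finset Vert, LocalOn (rkExpl n (↑S : Set Vert)) (E S) := fun S => localOn_rkE n ↑S
  have hlY : ∀ S : Finset Vert, LocalOn (eRect 0 m 0 (2 * n) \ rkB n (↑S : Set Vert)) (Y S) := fun S => localOn_rkY _ _ _ _
  have hdisj : ∀ S : Finset Vert, Disjoint (rkExpl n (↑S : Set Vert))
      (eRect 0 m 0 (2 * n) \ rkB n (↑S : Set Vert)) := by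
    intro S
    rw [Finset.disjoint_left]
    intro e he he'
    exact (Finset.mem_sdiff.1 he').2 (Finset.mem_union_left _ he)
  -- independence
  have hind : ∀ S : Finset Vert, Pr p (E S ∩ Y S) = Pr p (E S) * Pr p (Y S) := fun S =>
    Pr_inter_of_disjoint (hlE S) (hlY S) (hdisj S)
  -- the lower bound for `Y`
  have hYlow : ∀ S ∈ good, 1 - Real.sqrt (1 - Pr p {ω | HCross ω 0 m 0 (2 * n)}) ≤ Pr p (Y S) := by
    intro S hS
    have hZ : RkGood n (↑S : Set Vert) := (Finset.mem_filter.1 hS).2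
    set Y' : Set Config := rkY n m (rkB n ↑S) {t | (t.1, 2 * (n : ℤ) - t.2) ∈ rkT n ↑S} with hY'
    have hsub : {ω | HCross ω 0 m 0 (2 * n)} ⊆ Y S ∪ Y' := by
      intro ω hω
      obtain ⟨w, t, hw, ht, hc⟩ := hZ.path hn hmn hω
      rcases ht with ht | ht
      · exact Or.inl ⟨w, t, hw, ht, hc⟩
      · exact Or.inr ⟨w, t, hw, ht, hc⟩
    have hlY' : LocalOn (eRect 0 m 0 (2 * n) \ rkB n (↑S : Set Vert)) Y' := localOn_rkY _ _ _ _
    have hiY : Incr (Y S) := incr_rkY _ _ _ _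
    have hiY' : Incr Y' := incr_rkY _ _ _ _
    have hp' : Pr p Y' = Pr p (Y S) := Pr_rkY_refl rkB_refl _
    have h1 : Pr p (Y S)ᶜ * Pr p Y'ᶜ ≤ Pr p ((Y S)ᶜ ∩ Y'ᶜ) :=
      fkg_decr (hlY S).compl hlY'.compl (by rwa [compl_compl]) (by rwa [compl_compl])
    have h2 : Pr p ((Y S)ᶜ ∩ Y'ᶜ) ≤ Pr p {ω | HCross ω 0 m 0 (2 * n)}ᶜ := by
      refine Pr_mono ?_
      rintro ω ⟨h3, h4⟩ h5
      rcases hsub h5 with h6 | h6
      · exact h3 h6
      · exact h4 h6
    rw [Pr_compl (hlY S), Pr_compl hlY', hp'] at h1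
    rw [Pr_compl (localOn_hcross _ _ _ _)] at h2
    have h3 : (1 - Pr p (Y S)) ^ 2 ≤ 1 - Pr p {ω | HCross ω 0 m 0 (2 * n)} := by
      rw [pow_two]; exact h1.trans h2
    have h4 := Real.le_sqrt_of_sq_le h3
    linarith
  -- the vertical crossing event
  have hV : Pr p {ω | VCross ω 0 n 0 n} ≤ ∑ S ∈ good, Pr p (E S) := by
    refine (Pr_mono ?_).trans (Pr_biUnion_le good E)
    intro ω hω
    have hg := rkGood_of_vcross hn hω
    have hcoe : (↑(DF.filter (fun φ => φ ∈ rkZ n ω)) : Set Vert) = rkZ n ω := by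
      ext φ
      simp only [Finset.coe_filter, Set.mem_ofPred_eq, hDF, Finset.mem_product, Finset.mem_Icc]
      constructor
      · exact fun h => h.2
      · intro h
        have := rkZ_subset n ω h
        rw [mem_rkD] at this
        exact ⟨⟨⟨this.1, this.2.1⟩, this.2.2.1, this.2.2.2⟩, h⟩
    rw [Set.mem_iUnion₂]
    refine ⟨DF.filter (fun φ => φ ∈ rkZ n ω), ?_, ?_⟩
    · rw [hgood, Finset.mem_filter, Finset.mem_powerset, hcoe]
      exact ⟨Finset.filter_subset _ _, hg⟩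
    · simp only [hE, Set.mem_ofPred_eq, hcoe]
  -- the union is contained in the event `X`
  have hX : (⋃ S ∈ good, E S ∩ Y S) ⊆ XEvent m n := by
    intro ω hω
    rw [Set.mem_iUnion₂] at hω
    obtain ⟨S, hS, hωE, hωY⟩ := hω
    have hZ : RkGood n (↑S : Set Vert) := (Finset.mem_filter.1 hS).2
    obtain ⟨w, t, hw, ht, hc⟩ := hωY
    obtain ⟨u, hu, hu0⟩ := hZ.bottom hn
    obtain ⟨v, hv, hvn⟩ := hZ.top hn
    refine ⟨u, v, w, hu0, hvn, hw, hZ.conn_T hωE hu hv, ?_⟩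
    have h1 := hZ.conn_T hωE hu ht
    have h2 : Conn ω (rect 0 m 0 (2 * n)) u t := by
      refine h1.mono_set ?_
      intro x hx
      simp only [rect, Set.mem_ofPred_eq] at hx ⊢
      omega
    exact h2.trans (hc.symm.mono le_rfl fun e he => mask_le he)
  have hsum : Pr p (⋃ S ∈ good, E S ∩ Y S) = ∑ S ∈ good, Pr p (E S ∩ Y S) := by
    unfold Pr
    refine measureReal_biUnion_finset ?_ ?_ (fun _ _ => measure_ne_top _ _)
    · intro S _ S' _ hne
      rw [Function.onFun, Set.disjoint_left]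
      rintro ω ⟨h1, -⟩ ⟨h2, -⟩
      simp only [hE, Set.mem_ofPred_eq] at h1 h2
      exact hne (Finset.coe_injective (h1.symm.trans h2))
    · intro S _
      exact (hlE S).measurableSet.inter (hlY S).measurableSet
  have hs0 : 0 ≤ 1 - Real.sqrt (1 - Pr p {ω | HCross ω 0 m 0 (2 * n)}) := by
    have : Real.sqrt (1 - Pr p {ω | HCross ω 0 m 0 (2 * n)}) ≤ 1 := by
      rw [Real.sqrt_le_one]
      have := Pr_nonneg (p := p) (A := {ω | HCross ω 0 m 0 (2 * n)})
      linarith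
    linarith
  calc Pr p {ω | VCross ω 0 n 0 n} * (1 - Real.sqrt (1 - Pr p {ω | HCross ω 0 m 0 (2 * n)}))
      ≤ (∑ S ∈ good, Pr p (E S)) * (1 - Real.sqrt (1 - Pr p {ω | HCross ω 0 m 0 (2 * n)})) :=
        mul_le_mul_of_nonneg_right hV hs0
    _ = ∑ S ∈ good, Pr p (E S) * (1 - Real.sqrt (1 - Pr p {ω | HCross ω 0 m 0 (2 * n)})) := by
        rw [Finset.sum_mul]
    _ ≤ ∑ S ∈ good, Pr p (E S ∩ Y S) := by
        refine Finset.sum_le_sum fun S hS => ?_
        rw [hind S]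
        exact mul_le_mul_of_nonneg_left (hYlow S hS) Pr_nonneg
    _ = Pr p (⋃ S ∈ good, E S ∩ Y S) := hsum.symm
    _ ≤ Pr p (XEvent m n) := Pr_mono hX

end Pool.Agent.H83.EX
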