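import Pool.Agent.H85.Gamma.Main
import Pool.Agent.H57.LF.FS3

/-! # Upper bound for the mean cluster size -/

open MeasureTheory ProbabilityTheory unitInterval
open scoped ENNReal

namespace Pool.Agent.H83.EX

open Pool.Agent.H89.Perc

private lemma su_conn_ball {ω : Config} {v : Vert} (h : Conn ω Set.univ 0 v) :
    ∃ R : ℕ, Conn ω (ball 0 R) 0 v := by
  refine h.induction_right (P := fun v => ∃ R : ℕ, Conn ω (ball 0 R) 0 v)
    ⟨0, Conn.refl self_mem_ball⟩ ?_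
  rintro a b - hab ⟨R, hR⟩
  have h1 : Conn ω (ball 0 (R + 1)) 0 a := hR.mono_set (ball_subset_ball (Nat.le_succ R))
  have ha : a ∈ ball 0 R := hR.mem_right
  have h2 := hab.fst_le
  have h3 := hab.snd_le
  have hb : b ∈ ball 0 (R + 1) := by
    simp only [mem_ball, Prod.fst_zero, Prod.snd_zero] at ha ⊢
    push_cast
    omega
  exact ⟨R + 1, h1.tail ⟨h1.mem_right, hb, hab.2.2⟩⟩

private lemma su_meas (v : Vert) : MeasurableSet {ω : Config | Conn ω Set.univ 0 v} := by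
  have h : {ω : Config | Conn ω Set.univ 0 v} = ⋃ R : ℕ, {ω | Conn ω (ball 0 R) 0 v} := by
    ext ω
    simp only [Set.mem_ofPred_eq, Set.mem_iUnion]
    exact ⟨su_conn_ball, fun ⟨R, hR⟩ => hR.mono_set (Set.subset_univ _)⟩
  rw [h]
  exact MeasurableSet.iUnion fun R => (Pool.Agent.H85.Gamma.localOn_connB R 0 v).measurableSet

private lemma su_sigma (q : I) : Pool.Agent.H85.Gamma.sigma q =
    ∑' v : Vert, ENNReal.ofReal (Pr q {ω | Conn ω Set.univ 0 v}) := by
  classical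
  unfold Pool.Agent.H85.Gamma.sigma
  have h1 : ∀ ω : Config, (({v : Vert | Conn ω Set.univ 0 v}.encard : ℕ∞) : ℝ≥0∞) =
      ∑' v : Vert, Set.indicator {ω : Config | Conn ω Set.univ 0 v} (fun _ => (1 : ℝ≥0∞)) ω := by
    intro ω
    rw [← ENNReal.tsum_set_one, tsum_subtype {v : Vert | Conn ω Set.univ 0 v} (fun _ => (1 : ℝ≥0∞))]
    refine tsum_congr fun v => ?_
    by_cases h : Conn ω Set.univ 0 v
    · rw [Set.indicator_of_mem (show v ∈ {v : Vert | Conn ω Set.univ 0 v} from h),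
        Set.indicator_of_mem (show ω ∈ {ω : Config | Conn ω Set.univ 0 v} from h)]
    · rw [Set.indicator_of_notMem (show v ∉ {v : Vert | Conn ω Set.univ 0 v} from h),
        Set.indicator_of_notMem (show ω ∉ {ω : Config | Conn ω Set.univ 0 v} from h)]
  simp_rw [h1]
  rw [lintegral_tsum fun v => (measurable_const.indicator (su_meas v)).aemeasurable]
  refine tsum_congr fun v => ?_
  rw [lintegral_indicator (su_meas v), lintegral_const, Measure.restrict_apply_univ, one_mul]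
  unfold Pr
  rw [ofReal_measureReal]

/-- The iteration for the annulus crossings. -/
private lemma su_iter {q : I} {L : ℕ} (hL : 1 ≤ L)
    (h0 : Pr q (ArmBox 0 L (7 * L)) ≤ 1 / (81 * 10 ^ 8)) (k : ℕ) :
    10 ^ 8 * Pr q (ArmBox 0 (3 ^ k * L) (7 * (3 ^ k * L))) ≤ (1 / 81) ^ (k + 1) := by
  induction k with
  | zero =>
    simp only [pow_zero, one_mul, zero_add, pow_one]
    have : (1 : ℝ) / (81 * 10 ^ 8) = 1 / 10 ^ 8 * (1 / 81) := by norm_num
    rw [this] at h0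
    have h1 : (10 : ℝ) ^ 8 * (1 / 10 ^ 8 * (1 / 81)) = 1 / 81 := by norm_num
    calc _ ≤ (10 : ℝ) ^ 8 * (1 / 10 ^ 8 * (1 / 81)) := by gcongr
      _ = 1 / 81 := h1
  | succ k ih =>
    have h1 := Pool.Agent.H57.LF.fs_step (q := q) (L := 3 ^ k * L) (Nat.mul_pos (by positivity) hL)
    have e1 : 3 * (3 ^ k * L) = 3 ^ (k + 1) * L := by ring
    have e2 : 21 * (3 ^ k * L) = 7 * (3 ^ (k + 1) * L) := by ring
    rw [e1, e2] at h1
    set a := Pr q (ArmBox 0 (3 ^ k * L) (7 * (3 ^ k * L))) with ha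
    have ha0 : 0 ≤ a := Pr_nonneg
    calc 10 ^ 8 * Pr q (ArmBox 0 (3 ^ (k + 1) * L) (7 * (3 ^ (k + 1) * L)))
        ≤ 10 ^ 8 * (10 ^ 8 * a ^ 2) := by gcongr
      _ = (10 ^ 8 * a) ^ 2 := by ring
      _ ≤ ((1 / 81) ^ (k + 1)) ^ 2 := by gcongr
      _ = (1 / 81) ^ (2 * (k + 1)) := by rw [← pow_mul, mul_comm]
      _ ≤ (1 / 81) ^ (k + 1 + 1) := pow_le_pow_of_le_one (by norm_num) (by norm_num) (by omega)

/-- Far points: three events on disjoint sets of edges. -/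
private lemma su_far {q : I} {m L : ℕ} (hm : 1 ≤ m) (hL : m ≤ L) {v : Vert}
    (hv : v ∉ ball 0 (8 * L)) :
    Pr q {ω | Conn ω Set.univ 0 v} ≤ arm q (m - 1) ^ 2 * Pr q (ArmBox 0 L (7 * L)) := by
  classical
  set s := m - 1 with hs
  have hL1 : L - 1 + 1 = L := by omega
  have hv' : v ∉ ball 0 (8 * L) := hv
  simp only [mem_ball, Prod.fst_zero, Prod.snd_zero] at hv'
  push_cast at hv'
  have hsub : {ω : Config | Conn ω Set.univ 0 v} ⊆
      (Arm 0 s ∩ Ann (L - 1) (7 * L)) ∩ Arm v s := by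
    intro ω hω
    have hc : Conn ω Set.univ 0 v := hω
    refine ⟨⟨hc.mem_arm ?_, ?_⟩, hc.symm.mem_arm ?_⟩
    · simp only [Prod.fst_zero, Prod.snd_zero, sub_zero]
      rcases abs_cases v.1 with h3 | h3 <;> rcases abs_cases v.2 with h4 | h4 <;> omega
    · refine arm_subset_ann (R := 7 * L) (by omega) le_rfl (hc.mem_arm ?_)
      simp only [Prod.fst_zero, Prod.snd_zero, sub_zero]
      push_cast
      rcases abs_cases v.1 with h3 | h3 <;> rcases abs_cases v.2 with h4 | h4 <;> omega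
    · simp only [Prod.fst_zero, Prod.snd_zero, zero_sub, abs_neg]
      rcases abs_cases v.1 with h3 | h3 <;> rcases abs_cases v.2 with h4 | h4 <;> omega
  have hl1 : LocalOn (eBall (L - 1)) (Arm 0 s) := by
    intro ω ω' h hω
    obtain ⟨u, hu, hc⟩ := hω
    refine ⟨u, hu, Conn.congr (fun e he _ => h e ?_) hc⟩
    rw [mem_eBall]
    exact ball_subset_ball (by omega) he
  have hl2 : LocalOn (eBall (7 * L) \ eBall (L - 1)) (Ann (L - 1) (7 * L)) := localOn_ann _ _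
  have hl12 : LocalOn (eBall (7 * L)) (Arm 0 s ∩ Ann (L - 1) (7 * L)) :=
    (hl1.mono (eBall_subset (by omega))).inter (hl2.mono Finset.sdiff_subset)
  have hdis : Disjoint (eBall (7 * L)) (eRect (v.1 - s) (v.1 + s) (v.2 - s) (v.2 + s)) := by
    rw [Finset.disjoint_left]
    intro e h1 h2
    rw [mem_eBall] at h1
    rw [mem_eRect] at h2
    simp only [mem_ball, rect, Set.mem_ofPred_eq, Prod.fst_zero, Prod.snd_zero] at h1 h2
    push_cast at h1
    omega
  have h3 : Pr q (Ann (L - 1) (7 * L)) ≤ Pr q (ArmBox 0 L (7 * L)) := by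
    refine Pr_mono ?_
    have := ann_subset_armBox (L - 1) (7 * L)
    rwa [hL1] at this
  calc Pr q {ω | Conn ω Set.univ 0 v}
      ≤ Pr q ((Arm 0 s ∩ Ann (L - 1) (7 * L)) ∩ Arm v s) := Pr_mono hsub
    _ = Pr q (Arm 0 s ∩ Ann (L - 1) (7 * L)) * Pr q (Arm v s) :=
        Pr_inter_of_disjoint hl12 (localOn_arm v s) hdis
    _ = Pr q (Arm 0 s) * Pr q (Ann (L - 1) (7 * L)) * Pr q (Arm v s) := by
        rw [Pr_inter_of_disjoint hl1 hl2 Finset.disjoint_sdiff]
    _ = arm q s ^ 2 * Pr q (Ann (L - 1) (7 * L)) := by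
        rw [Pr_arm v s, Pr_arm 0 s]; ring
    _ ≤ arm q s ^ 2 * Pr q (ArmBox 0 L (7 * L)) := by gcongr

private lemma su_nrm {N : ℕ} {v : Vert} :
    v ∈ Pool.Agent.H85.Gamma.bx N ↔ Pool.Agent.H85.Gamma.nrm v ≤ N := by
  rw [Pool.Agent.H85.Gamma.mem_bx]
  unfold Pool.Agent.H85.Gamma.nrm
  simp only [mem_ball, Prod.fst_zero, Prod.snd_zero]
  omega

/-- Sum of `1 / (|v| + 1)` over a box. -/
private lemma su_box (N : ℕ) :
    ∑ v ∈ Pool.Agent.H85.Gamma.bx N, 1 / ((Pool.Agent.H85.Gamma.nrm v : ℝ) + 1) ≤ 8 * N + 1 := by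
  classical
  induction N with
  | zero =>
    have h : Pool.Agent.H85.Gamma.bx 0 = {0} := by
      ext v
      rw [su_nrm, Finset.mem_singleton]
      unfold Pool.Agent.H85.Gamma.nrm
      constructor
      · intro h
        ext
        · simp only [Prod.fst_zero]; omega
        · simp only [Prod.snd_zero]; omega
      · rintro rfl
        simp
    rw [h, Finset.sum_singleton]
    simp [Pool.Agent.H85.Gamma.nrm]
  | succ N ih =>
    have hsub : Pool.Agent.H85.Gamma.bx N ⊆ Pool.Agent.H85.Gamma.bx (N + 1) := by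
      intro v hv
      rw [su_nrm] at hv ⊢
      omega
    rw [← Finset.sum_sdiff hsub]
    have h1 : ∑ v ∈ Pool.Agent.H85.Gamma.bx (N + 1) \ Pool.Agent.H85.Gamma.bx N,
        1 / ((Pool.Agent.H85.Gamma.nrm v : ℝ) + 1) ≤ 8 := by
      have h2 : ∀ v ∈ Pool.Agent.H85.Gamma.bx (N + 1) \ Pool.Agent.H85.Gamma.bx N,
          1 / ((Pool.Agent.H85.Gamma.nrm v : ℝ) + 1) ≤ 1 / ((N : ℝ) + 1) := by
        intro v hv
        rw [Finset.mem_sdiff, su_nrm, su_nrm] at hv
        have : (N : ℝ) ≤ Pool.Agent.H85.Gamma.nrm v := by exact_mod_cast (by omega)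
        apply one_div_le_one_div_of_le (by positivity)
        linarith
      refine (Finset.sum_le_card_nsmul _ _ _ h2).trans ?_
      rw [nsmul_eq_mul, Finset.cast_card_sdiff hsub, Pool.Agent.H85.Gamma.card_bx,
        Pool.Agent.H85.Gamma.card_bx]
      have : (0 : ℝ) < (N : ℝ) + 1 := by positivity
      rw [mul_one_div, div_le_iff₀ this]
      push_cast
      nlinarith
    push_cast
    linarith

theorem sigma_upper : ∃ ε > (0 : ℝ), ∃ C > (0 : ℝ), ∀ q : I, q ≤ half → ∀ m : ℕ, 1 ≤ m →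
    Pr q (ArmBox 0 m (7 * m)) ≤ ε →
    Pool.Agent.H85.Gamma.sigma q ≤ ENNReal.ofReal (C * (m : ℝ) ^ 2 * arm half m ^ 2) := by
  classical
  obtain ⟨C, hC, hreg⟩ := Pool.Agent.H85.Gamma.arm_reg
  refine ⟨1 / (81 * 10 ^ 8), by positivity, 1000 * C ^ 2, by positivity, fun q hq m hm h0 => ?_⟩
  have hmp : (1 : ℝ) ≤ m := by exact_mod_cast hm
  set π := arm half m with hπ
  have hπ0 : 0 ≤ π := arm_nonneg
  -- bound for the square of the arm
  have hsq : ∀ s : ℕ, s ≤ m → arm q s ^ 2 ≤ C ^ 2 * (m / (s + 1)) * π ^ 2 := by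
    intro s hs
    have h1 : arm q s ≤ C * Real.sqrt (m / (s + 1)) * π :=
      (arm_mono_param s hq).trans (hreg s m hm hs)
    calc arm q s ^ 2 ≤ (C * Real.sqrt (m / (s + 1)) * π) ^ 2 := by
          gcongr
          exact arm_nonneg
      _ = C ^ 2 * Real.sqrt (m / (s + 1)) ^ 2 * π ^ 2 := by ring
      _ = _ := by rw [Real.sq_sqrt (by positivity)]
  set P : Vert → ℝ := fun v => Pr q {ω | Conn ω Set.univ 0 v} with hP
  have hP0 : ∀ v, 0 ≤ P v := fun v => Pr_nonneg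
  -- near points
  have hnear : ∑ v ∈ Pool.Agent.H85.Gamma.bx (8 * m), P v ≤ 520 * C ^ 2 * m ^ 2 * π ^ 2 := by
    have h1 : ∀ v ∈ Pool.Agent.H85.Gamma.bx (8 * m),
        P v ≤ 8 * C ^ 2 * m * π ^ 2 * (1 / ((Pool.Agent.H85.Gamma.nrm v : ℝ) + 1)) := by
      intro v hv
      rw [su_nrm] at hv
      set n := Pool.Agent.H85.Gamma.nrm v with hn
      set s := min (n / 2 - 1) m with hs
      have h2 : P v ≤ arm q s ^ 2 :=
        Pool.Agent.H85.Gamma.Pr_conn_le' q Set.univ v s (by omega)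
      have h3 : n + 1 ≤ 8 * (s + 1) := by omega
      have h4 : (n : ℝ) + 1 ≤ 8 * ((s : ℝ) + 1) := by exact_mod_cast h3
      have h5 : (m : ℝ) / (s + 1) ≤ 8 * m * (1 / ((n : ℝ) + 1)) := by
        rw [mul_one_div, div_le_div_iff₀ (by positivity) (by positivity)]
        nlinarith
      calc P v ≤ arm q s ^ 2 := h2
        _ ≤ C ^ 2 * (m / (s + 1)) * π ^ 2 := hsq s (min_le_right _ _)
        _ ≤ C ^ 2 * (8 * m * (1 / ((n : ℝ) + 1))) * π ^ 2 := by gcongr
        _ = _ := by ring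
    refine (Finset.sum_le_sum h1).trans ?_
    rw [← Finset.mul_sum]
    have h6 := su_box (8 * m)
    push_cast at h6
    have h7 : 8 * (8 * (m : ℝ)) + 1 ≤ 65 * m := by linarith
    calc 8 * C ^ 2 * m * π ^ 2 * ∑ v ∈ Pool.Agent.H85.Gamma.bx (8 * m),
          1 / ((Pool.Agent.H85.Gamma.nrm v : ℝ) + 1)
        ≤ 8 * C ^ 2 * m * π ^ 2 * (65 * m) := by
          gcongr
          exact h6.trans h7
      _ = _ := by ring
  -- all boxes
  have hall : ∀ K : ℕ, ∑ v ∈ Pool.Agent.H85.Gamma.bx (8 * (3 ^ K * m)), P v ≤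
      (521 - (1 / 9) ^ K) * C ^ 2 * m ^ 2 * π ^ 2 := by
    intro K
    induction K with
    | zero =>
      simp only [pow_zero, one_mul]
      refine hnear.trans (le_of_eq ?_)
      ring
    | succ K ih =>
      have hsub : Pool.Agent.H85.Gamma.bx (8 * (3 ^ K * m)) ⊆
          Pool.Agent.H85.Gamma.bx (8 * (3 ^ (K + 1) * m)) := by
        intro v hv
        rw [su_nrm] at hv ⊢
        refine hv.trans ?_
        gcongr
        · norm_num
        · omega
      rw [← Finset.sum_sdiff hsub]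
      set a := Pr q (ArmBox 0 (3 ^ K * m) (7 * (3 ^ K * m))) with ha
      have hit : 10 ^ 8 * a ≤ (1 / 81) ^ (K + 1) := su_iter hm h0 K
      have ha0 : 0 ≤ a := Pr_nonneg
      have h1 : ∀ v ∈ Pool.Agent.H85.Gamma.bx (8 * (3 ^ (K + 1) * m)) \
          Pool.Agent.H85.Gamma.bx (8 * (3 ^ K * m)), P v ≤ C ^ 2 * π ^ 2 * a := by
        intro v hv
        rw [Finset.mem_sdiff, Pool.Agent.H85.Gamma.mem_bx, Pool.Agent.H85.Gamma.mem_bx] at hv
        have h2 : P v ≤ arm q (m - 1) ^ 2 * a :=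
          su_far hm (Nat.le_mul_of_pos_left _ (by positivity)) hv.2
        have h3 := hsq (m - 1) (Nat.sub_le _ _)
        have h4 : (m : ℝ) / (((m - 1 : ℕ) : ℝ) + 1) = 1 := by
          have : ((m - 1 : ℕ) : ℝ) + 1 = m := by
            have : m - 1 + 1 = m := by omega
            exact_mod_cast this
          rw [this, div_self (by positivity)]
        rw [h4, mul_one] at h3
        refine h2.trans ?_
        gcongr
      have h2 : ∑ v ∈ Pool.Agent.H85.Gamma.bx (8 * (3 ^ (K + 1) * m)) \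
          Pool.Agent.H85.Gamma.bx (8 * (3 ^ K * m)), P v ≤
          (8 / 9 * (1 / 9) ^ K) * C ^ 2 * m ^ 2 * π ^ 2 := by
        refine (Finset.sum_le_card_nsmul _ _ _ h1).trans ?_
        rw [nsmul_eq_mul]
        have h3 : ((Pool.Agent.H85.Gamma.bx (8 * (3 ^ (K + 1) * m)) \
          Pool.Agent.H85.Gamma.bx (8 * (3 ^ K * m))).card : ℝ) ≤ 10 ^ 7 * 9 ^ (K + 1) * m ^ 2 := by
          refine (Nat.cast_le.2 (Finset.card_le_card Finset.sdiff_subset)).trans ?_
          rw [Pool.Agent.H85.Gamma.card_bx]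
          push_cast
          have h5 : (1 : ℝ) ≤ 3 ^ (K + 1) * m := by
            have : (1 : ℝ) ≤ 3 ^ (K + 1) := one_le_pow₀ (by norm_num)
            nlinarith
          have h9 : (9 : ℝ) ^ (K + 1) = ((3 : ℝ) ^ (K + 1)) ^ 2 := by
            rw [← pow_mul, mul_comm, pow_mul]
            norm_num
          calc ((2 : ℝ) * (8 * ((3 : ℝ) ^ (K + 1) * (m : ℝ))) + 1) ^ 2
              ≤ (17 * ((3 : ℝ) ^ (K + 1) * (m : ℝ))) ^ 2 := by
                gcongr
                linarith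
            _ = 289 * 9 ^ (K + 1) * (m : ℝ) ^ 2 := by
                rw [h9]
                ring
            _ ≤ 10 ^ 7 * 9 ^ (K + 1) * (m : ℝ) ^ 2 := by
                gcongr
                norm_num
        have h6 : (9 : ℝ) ^ (K + 1) * (1 / 81) ^ (K + 1) = (1 / 9) ^ (K + 1) := by
          rw [← mul_pow]
          norm_num
        calc ((Pool.Agent.H85.Gamma.bx (8 * (3 ^ (K + 1) * m)) \
              Pool.Agent.H85.Gamma.bx (8 * (3 ^ K * m))).card : ℝ) * (C ^ 2 * π ^ 2 * a)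
            ≤ (10 ^ 7 * 9 ^ (K + 1) * m ^ 2) * (C ^ 2 * π ^ 2 * a) := by gcongr
          _ = 1 / 10 * 9 ^ (K + 1) * (10 ^ 8 * a) * C ^ 2 * m ^ 2 * π ^ 2 := by ring
          _ ≤ 1 / 10 * 9 ^ (K + 1) * (1 / 81) ^ (K + 1) * C ^ 2 * m ^ 2 * π ^ 2 := by gcongr
          _ = 1 / 10 * (9 ^ (K + 1) * (1 / 81) ^ (K + 1)) * C ^ 2 * m ^ 2 * π ^ 2 := by ring
          _ = 1 / 10 * (1 / 9) ^ (K + 1) * C ^ 2 * m ^ 2 * π ^ 2 := by rw [h6]
          _ ≤ (8 / 9 * (1 / 9) ^ K) * C ^ 2 * m ^ 2 * π ^ 2 := by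
              gcongr ?_ * _ * _ * _
              rw [pow_succ]
              have : (0 : ℝ) ≤ (1 / 9) ^ K := by positivity
              nlinarith
      calc _ ≤ (8 / 9 * (1 / 9) ^ K) * C ^ 2 * m ^ 2 * π ^ 2 +
            (521 - (1 / 9) ^ K) * C ^ 2 * m ^ 2 * π ^ 2 := add_le_add h2 ih
        _ = _ := by rw [pow_succ]; ring
  rw [su_sigma, ENNReal.tsum_eq_iSup_sum]
  refine iSup_le fun F => ?_
  rw [← ENNReal.ofReal_sum_of_nonneg fun v _ => Pr_nonneg]
  apply ENNReal.ofReal_le_ofReal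
  -- `F` is contained in a box
  obtain ⟨K, hK⟩ : ∃ K : ℕ, F ⊆ Pool.Agent.H85.Gamma.bx (8 * (3 ^ K * m)) := by
    refine ⟨F.sup Pool.Agent.H85.Gamma.nrm, fun v hv => ?_⟩
    rw [su_nrm]
    have h1 : Pool.Agent.H85.Gamma.nrm v ≤ F.sup Pool.Agent.H85.Gamma.nrm := Finset.le_sup hv
    have h2 : F.sup Pool.Agent.H85.Gamma.nrm < 3 ^ (F.sup Pool.Agent.H85.Gamma.nrm) :=
      Nat.lt_pow_self (by norm_num)
    have h3 : 3 ^ (F.sup Pool.Agent.H85.Gamma.nrm) ≤
      3 ^ (F.sup Pool.Agent.H85.Gamma.nrm) * m := Nat.le_mul_of_pos_right _ hm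
    omega
  calc ∑ v ∈ F, P v ≤ ∑ v ∈ Pool.Agent.H85.Gamma.bx (8 * (3 ^ K * m)), P v :=
        Finset.sum_le_sum_of_subset_of_nonneg hK fun v _ _ => hP0 v
    _ ≤ (521 - (1 / 9) ^ K) * C ^ 2 * m ^ 2 * π ^ 2 := hall K
    _ ≤ 1000 * C ^ 2 * m ^ 2 * π ^ 2 := by
        gcongr
        have : (0 : ℝ) ≤ (1 / 9) ^ K := by positivity
        linarith

end Pool.Agent.H83.EX
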