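import Pool.Agent.H89.Perc.RSW
import Pool.Agent.H61.NC.Defs

/-! # Box crossing property at general densities -/

open MeasureTheory ProbabilityTheory unitInterval

namespace Pool.Agent.H83.EX

open Pool.Agent.H89.Perc

lemma wr_localOn_edge (e : Edge) : LocalOn {e} {ω : Config | ω e = true} := by
  intro ω ω' h hA
  have : ω e = ω' e := h e (by simp)
  simp only [Set.mem_ofPred_eq] at hA ⊢
  rw [← this]
  exact hA

lemma wr_incr_edge (e : Edge) : Incr {ω : Config | ω e = true} := fun _ _ h hA => h e hA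

lemma wr_edge (q : I) (e : Edge) : Pr q {ω : Config | ω e = true} = q := by
  classical
  rw [Pr_eq_update (wr_localOn_edge e) e]
  have h1 : {ω : Config | Function.update ω e true ∈ {ω : Config | ω e = true}} = Set.univ := by
    ext ω
    simp
  have h2 : {ω : Config | Function.update ω e false ∈ {ω : Config | ω e = true}} = ∅ := by
    ext ω
    simp
  rw [h1, h2, Pr_univ]
  simp [Pr]

/-- The first `k` horizontal edges of the axis are open. -/
def wr_row (k : ℕ) : Set Config := {ω | ∀ i : ℕ, i < k → ω ((i : ℤ), 0, false) = true}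

lemma wr_row_local (k : ℕ) : LocalOn ((Finset.range k).image fun i : ℕ => (((i : ℤ), 0, false) : Edge))
    (wr_row k) := by
  intro ω ω' h hA i hi
  rw [← h _ (Finset.mem_image.2 ⟨i, Finset.mem_range.2 hi, rfl⟩)]
  exact hA i hi

lemma wr_row_incr (k : ℕ) : Incr (wr_row k) := fun _ _ h hA i hi => h _ (hA i hi)

lemma wr_row_Pr (q : I) (k : ℕ) : (q : ℝ) ^ k ≤ Pr q (wr_row k) := by
  classical
  induction k with
  | zero =>
    have : wr_row 0 = Set.univ := by
      ext ω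
      simp [wr_row]
    rw [this, Pr_univ, pow_zero]
  | succ k ih =>
    have h1 := fkg (p := q) (wr_row_local k) (wr_localOn_edge ((k : ℤ), 0, false)) (wr_row_incr k)
      (wr_incr_edge _)
    rw [wr_edge] at h1
    have h2 : wr_row k ∩ {ω : Config | ω ((k : ℤ), 0, false) = true} ⊆ wr_row (k + 1) := by
      rintro ω ⟨h3, h4⟩ i hi
      rcases Nat.lt_succ_iff_lt_or_eq.1 hi with h5 | h5
      · exact h3 i h5
      · subst h5
        exact h4
    calc (q : ℝ) ^ (k + 1) = (q : ℝ) ^ k * q := pow_succ _ _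
      _ ≤ Pr q (wr_row k) * q := mul_le_mul_of_nonneg_right ih q.2.1
      _ ≤ _ := h1.trans (Pr_mono h2)

lemma wr_row_cross {k : ℕ} {ω : Config} (h : ω ∈ wr_row k) {d : ℤ} (hd : 0 ≤ d) :
    HCross ω 0 k 0 d := by
  have key : ∀ i : ℕ, i ≤ k → Conn ω (rect 0 k 0 d) (0, 0) ((i : ℤ), 0) := by
    intro i
    induction i with
    | zero =>
      intro _
      exact ⟨⟨le_rfl, by simp, le_rfl, hd⟩, Relation.ReflTransGen.refl⟩
    | succ i ih =>
      intro hi
      refine (ih (by omega)).tail ⟨⟨by simp, by simp only; omega, le_rfl, hd⟩,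
        ⟨by simp only; omega, by simp only; omega, le_rfl, hd⟩, ((i : ℤ), 0, false), Or.inl ⟨rfl, ?_⟩,
        h i (by omega)⟩
      simp [tgt]
  exact ⟨(0, 0), ((k : ℤ), 0), rfl, rfl, key k le_rfl⟩

lemma wr_row_bound (q : I) {k m : ℕ} (hk : k ≤ m) {d : ℤ} (hd : 0 ≤ d) :
    (q : ℝ) ^ m ≤ Pr q {ω | HCross ω 0 k 0 d} := by
  have h1 : (q : ℝ) ^ m ≤ (q : ℝ) ^ k := pow_le_pow_of_le_one q.2.1 q.2.2 hk
  exact h1.trans ((wr_row_Pr q k).trans (Pr_mono fun ω hω => wr_row_cross hω hd))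

/-- A crossing of the `4 × 4` square uses an edge of the first column. -/
lemma wr_square {ω : Config} (h : HCross ω 0 4 0 4) :
    ∃ y ∈ Finset.range 5, ω (0, (y : ℤ), false) = true := by
  by_contra hno
  push Not at hno
  obtain ⟨u, v, hu, hv, hS, hc⟩ := h
  have key : ∀ w, Relation.ReflTransGen (Step ω (rect 0 4 0 4)) u w → w.1 = 0 := by
    intro w hw
    induction hw with
    | refl => exact hu
    | tail _ hst ih =>
      rename_i b c _
      obtain ⟨hb, hc', e, hj, he⟩ := hst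
      obtain ⟨x, y, t⟩ := e
      cases t
      · -- horizontal
        rcases hj with ⟨rfl, rfl⟩ | ⟨rfl, rfl⟩
        · simp only [src] at ih hb hc'
          exfalso
          obtain ⟨-, -, h3, h4⟩ := hb
          simp only at h3 h4 ih
          obtain ⟨y', rfl⟩ : ∃ y' : ℕ, y = y' := ⟨y.toNat, by omega⟩
          subst ih
          exact hno y' (by rw [Finset.mem_range]; omega) he
        · simp only [src, tgt] at ih hb hc' ⊢
          obtain ⟨h1, -, -, -⟩ := hc'
          simp only at h1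
          simp at ih
          omega
      · rcases hj with ⟨rfl, rfl⟩ | ⟨rfl, rfl⟩
        · simpa [src, tgt] using ih
        · simpa [src, tgt] using ih
  have := key v hc
  omega

lemma wr_density {q : I} {δ : ℝ} (h : δ ≤ Pr q {ω | HCross ω 0 4 0 4}) : δ / 5 ≤ q := by
  have h1 : {ω : Config | HCross ω 0 4 0 4} ⊆ ⋃ y ∈ Finset.range 5, {ω : Config | ω (0, ((y : ℕ) : ℤ), false) = true} := by
    intro ω hω
    obtain ⟨y, hy, hy'⟩ := wr_square hω
    exact Set.mem_iUnion₂.2 ⟨y, hy, hy'⟩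
  have h2 := (Pr_mono (p := q) h1).trans (Pr_biUnion_le _ _)
  simp only [wr_edge, Finset.sum_const, Finset.card_range, nsmul_eq_mul] at h2
  push_cast at h2
  linarith

/-- One step of the iteration. -/
lemma wr_step {q : I} {δ : ℝ} (hδ : 0 ≤ δ) {m n : ℕ} (hn : 1 ≤ n) (hmn : n ≤ m)
    (hsq : δ ≤ Pr q {ω | HCross ω 0 n 0 n}) {x : ℝ} (hx : 0 ≤ x)
    (h : x ≤ Pr q {ω | HCross ω 0 m 0 (2 * n)}) :
    δ ^ 3 * x ^ 2 / 4 ≤ Pr q {ω | HCross ω 0 (2 * m - n) 0 (2 * n)} := by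
  have h1 := rsw_key (p := q) hn hmn
  have h2 := rsw_glue (p := q) hn hmn
  have h3 : Pr q {ω | HCross ω (n - m) m 0 (2 * n)} =
      Pr q {ω | HCross ω 0 (2 * m - n) 0 (2 * n)} := by
    have := Pr_hcross_translate (p := q) (a := 0) (b := 2 * (m : ℤ) - n) (c := 0)
      (d := 2 * (n : ℤ)) ((n : ℤ) - m) 0
    rw [← this]
    congr 1
    ext ω
    simp only [zero_add, add_zero, Set.mem_ofPred_eq]
    rw [show 2 * (m : ℤ) - n + (n - m) = m by ring]
  rw [h3] at h2
  have h5 : δ ≤ Pr q {ω | VCross ω 0 n 0 n} := by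
    rw [Pr_vcross_eq_hcross]
    exact hsq
  have h6 : δ * x / 2 ≤ Pr q (XEvent m n) := by
    refine le_trans ?_ h1
    have h7 : 0 ≤ Pr q {ω | VCross ω 0 n 0 n} := Pr_nonneg
    have := mul_le_mul h5 h hx h7
    linarith
  have h9 : (δ * x / 2) ^ 2 ≤ Pr q (XEvent m n) ^ 2 := pow_le_pow_left₀ (by positivity) h6 2
  calc δ ^ 3 * x ^ 2 / 4 = (δ * x / 2) ^ 2 * δ := by ring
    _ ≤ Pr q (XEvent m n) ^ 2 * Pr q {ω | HCross ω 0 n 0 n} :=
        mul_le_mul h9 hsq hδ (by positivity)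
    _ ≤ _ := h2

/-- The constants of the iteration. -/
noncomputable def wr_beta (δ : ℝ) : ℕ → ℝ
  | 0 => δ
  | i + 1 => δ ^ 3 * wr_beta δ i ^ 2 / 4

lemma wr_beta_pos {δ : ℝ} (hδ : 0 < δ) (i : ℕ) : 0 < wr_beta δ i := by
  induction i with
  | zero => exact hδ
  | succ i ih =>
    rw [wr_beta]
    positivity

lemma wr_iter {q : I} {δ : ℝ} (hδ : 0 < δ) {n : ℕ} (hn : 1 ≤ n)
    (hsq : δ ≤ Pr q {ω | HCross ω 0 n 0 n}) (hsq2 : δ ≤ Pr q {ω | HCross ω 0 (2 * n) 0 (2 * n)}) (i : ℕ) :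
    wr_beta δ i ≤ Pr q {ω | HCross ω 0 (((2 ^ i + 1) * n : ℕ) : ℤ) 0 (2 * n)} := by
  induction i with
  | zero =>
    have e : (((2 ^ 0 + 1) * n : ℕ) : ℤ) = 2 * n := by push_cast; ring
    rw [e]
    exact hsq2
  | succ i ih =>
    have h1 := wr_step hδ.le hn (Nat.le_mul_of_pos_left n (by positivity)) hsq
      (wr_beta_pos hδ i).le ih
    have e : 2 * (((2 ^ i + 1) * n : ℕ) : ℤ) - n = (((2 ^ (i + 1) + 1) * n : ℕ) : ℤ) := by
      push_cast
      ring
    rw [e] at h1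
    exact h1

theorem weak_rsw : ∀ δ > (0 : ℝ), ∀ K : ℕ, ∃ c > (0 : ℝ), ∀ q : I, ∀ M : ℕ, 1 ≤ M →
    (∀ m : ℕ, 1 ≤ m → m ≤ M → δ ≤ Pr q {ω | HCross ω 0 (4 * m) 0 (4 * m)}) →
    ∀ n : ℕ, 1 ≤ n → n ≤ K * M → c ≤ Pr q {ω | HCross ω 0 (4 * n) 0 n} := by
  intro δ hδ K
  refine ⟨min (wr_beta δ (3 * K + 16)) ((δ / 5) ^ (4 * (8 + K))),
    lt_min (wr_beta_pos hδ _) (by positivity), ?_⟩
  intro q M hM hsq n hn hnM
  by_cases hcase : 8 ≤ n ∧ 2 ≤ M
  · obtain ⟨hn8, hM2⟩ := hcase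
    refine (min_le_left _ _).trans ?_
    set j : ℕ := min (n / 8) (M / 2) with hj
    have hj1 : 1 ≤ j := by
      rw [hj]
      exact le_min (by omega) (by omega)
    have hjn : j ≤ n / 8 := min_le_left _ _
    have hjM : j ≤ M / 2 := min_le_right _ _
    have h1 : δ ≤ Pr q {ω | HCross ω 0 ((4 * j : ℕ) : ℤ) 0 ((4 * j : ℕ) : ℤ)} := by
      have := hsq j hj1 (by omega)
      push_cast
      exact this
    have h2 : δ ≤ Pr q {ω | HCross ω 0 (2 * ((4 * j : ℕ) : ℤ)) 0 (2 * ((4 * j : ℕ) : ℤ))} := by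
      have := hsq (2 * j) (by omega) (by omega)
      have e : (4 : ℤ) * ((2 * j : ℕ) : ℤ) = 2 * ((4 * j : ℕ) : ℤ) := by push_cast; ring
      rw [e] at this
      exact this
    refine (wr_iter hδ (n := 4 * j) (by omega) h1 h2 (3 * K + 16)).trans (Pr_mono ?_)
    intro ω hω
    have hpow : 3 * K + 16 ≤ 2 ^ (3 * K + 16) := Nat.lt_two_pow_self.le
    have hnj : n ≤ (3 * K + 16) * j := by
      rcases le_total (n / 8) (M / 2) with h | h
      · have : j = n / 8 := by rw [hj]; exact min_eq_left h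
        have h3 : n ≤ 16 * j := by omega
        exact h3.trans (Nat.mul_le_mul_right j (by omega))
      · have : j = M / 2 := by rw [hj]; exact min_eq_right h
        have h3 : M ≤ 3 * j := by omega
        have h4 : n ≤ 3 * K * j := by
          calc n ≤ K * M := hnM
            _ ≤ K * (3 * j) := Nat.mul_le_mul_left K h3
            _ = 3 * K * j := by ring
        exact h4.trans (Nat.mul_le_mul_right j (by omega))
    have hw : 4 * n ≤ (2 ^ (3 * K + 16) + 1) * (4 * j) := by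
      calc 4 * n ≤ 4 * ((3 * K + 16) * j) := Nat.mul_le_mul_left 4 hnj
        _ = (3 * K + 16) * (4 * j) := by ring
        _ ≤ (2 ^ (3 * K + 16) + 1) * (4 * j) := Nat.mul_le_mul_right _ (by omega)
    refine HCross.mono hω le_rfl (by positivity) (by exact_mod_cast hw) le_rfl ?_
    push_cast
    omega
  · refine (min_le_right _ _).trans ?_
    have hq : δ / 5 ≤ q := by
      apply wr_density
      have := hsq 1 le_rfl hM
      simpa using this
    have hnK : n ≤ 8 + K := by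
      by_contra hcon
      push Not at hcon
      have hM1 : M = 1 := by
        by_contra hM1
        exact hcase ⟨by omega, by omega⟩
      rw [hM1, mul_one] at hnM
      omega
    have h1 : (δ / 5) ^ (4 * (8 + K)) ≤ (q : ℝ) ^ (4 * (8 + K)) := pow_le_pow_left₀ (by positivity) hq _
    refine h1.trans ?_
    have h2 := wr_row_bound q (k := 4 * n) (m := 4 * (8 + K)) (by omega) (d := n) (by positivity)
    push_cast at h2
    exact h2

theorem rswreg_of_bad : ∀ δ > (0 : ℝ), ∀ K : ℕ, ∃ c > (0 : ℝ), ∀ p : I, half ≤ p → ∀ M : ℕ,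
    1 ≤ M → (∀ m : ℕ, 1 ≤ m → m ≤ M → Pr p {ω | HCross ω 0 (4 * m) 0 (4 * m)} < 1 - δ) →
    ∀ q : I, σ p ≤ q → q ≤ p → Pool.Agent.H61.NC.RSWreg c (K * M) q := by
  intro δ hδ K
  obtain ⟨c, hc, hw⟩ := weak_rsw δ hδ K
  refine ⟨c, hc, fun p _ M hM hbad q hq1 hq2 => ?_⟩
  have hsq : ∀ m : ℕ, 1 ≤ m → m ≤ M → δ ≤ Pr (σ p) {ω | HCross ω 0 (4 * m) 0 (4 * m)} := by
    intro m hm hmM
    have h1 : (Set.univ : Set Config) ⊆ {ω | HCross ω 0 (4 * (m : ℤ)) 0 (4 * m)} ∪
        {ω | dual ω ∈ {η | VCross η 0 (4 * (m : ℤ) - 1) (0 - 1) (4 * m)}} := by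
      intro ω _
      rcases hcross_or_dual_vcross (ω := ω) (a := 0) (b := 4 * (m : ℤ)) (c := 0) (d := 4 * m)
        (by omega) (by omega) with h | h
      · exact Or.inl h
      · exact Or.inr h
    have h2 : (1 : ℝ) ≤ Pr p {ω | HCross ω 0 (4 * (m : ℤ)) 0 (4 * m)} +
        Pr p {ω | dual ω ∈ {η | VCross η 0 (4 * (m : ℤ) - 1) (0 - 1) (4 * m)}} := by
      rw [← Pr_univ (p := p)]
      exact (Pr_mono h1).trans Pr_union_le
    rw [Pr_dual (localOn_vcross 0 (4 * (m : ℤ) - 1) (0 - 1) (4 * m))] at h2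
    have h3 := hbad m hm hmM
    have h4 : Pr (σ p) {η | VCross η 0 (4 * (m : ℤ) - 1) (0 - 1) (4 * m)} ≤
        Pr (σ p) {ω | HCross ω 0 (4 * m) 0 (4 * m)} := by
      rw [← Pr_vcross_eq_hcross]
      apply Pr_mono
      intro ω h
      exact VCross.mono h le_rfl (by omega) (by omega) (by omega) le_rfl
    linarith
  intro m hm hmKM
  have h1 := hw (σ p) M hM hsq m hm hmKM
  refine ⟨h1.trans (Pr_mono_param (localOn_hcross _ _ _ _) (incr_hcross _ _ _ _) hq1),
    h1.trans (Pr_mono_param (localOn_hcross _ _ _ _) (incr_hcross _ _ _ _) ?_)⟩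
  rw [← Subtype.coe_le_coe]
  simp only [unitInterval.coe_symm_eq]
  have : (q : ℝ) ≤ p := hq2
  linarith

end Pool.Agent.H83.EX
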