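import Pool.Agent.H89.Perc.TorusDefs
import Pool.Agent.H89.Perc.Cross

/-! # A winding path from crossings of rectangles -/

open MeasureTheory ProbabilityTheory unitInterval

namespace Pool.Agent.H83.EX

open Pool.Agent.H89.Perc

/-- A path across a vertical strip meets every vertical crossing of the strip. -/
private lemma windDet_meet {η : Config} {A B a b c d : ℤ} {u v u' v' : Vert}
    (h : Conn η (rect A B c d) u v) (hu : u.1 ≤ a) (hv : b ≤ v.1) (hab : a ≤ b)
    (h' : Conn η (rect a b c d) u' v') (hu' : u'.2 = c) (hv' : v'.2 = d) :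
    Conn η Set.univ u u' := by
  obtain ⟨p, q, hp, hq, h1, h2, -⟩ := h.cross_x hu hv hab
  have h3 : Conn η (rect a b c d) p q := by
    refine h1.mono_set ?_
    intro w hw
    simp only [rect, Set.mem_inter_iff, Set.mem_ofPred_eq] at hw ⊢
    omega
  obtain ⟨w, h4, h5⟩ := cross h3 hp hq h' hu' hv'
  exact ((h2.mono_set (Set.subset_univ _)).trans (h4.mono_set (Set.subset_univ _))).trans
    (h5.mono_set (Set.subset_univ _)).symm

theorem wind_det {m : ℕ} (hm : 1 ≤ m) {η : Config} (hη : ∀ e, η (shiftE (14 * m, 0) e) = η e)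
    (h1 : HCross η 0 (12 * m) 0 (5 * m)) (h2 : HCross η (7 * m) (19 * m) 0 (5 * m))
    (v1 : VCross η (7 * m) (12 * m) 0 (5 * m)) (v2 : VCross η (14 * m) (19 * m) 0 (5 * m)) :
    ∃ u : Vert, Conn η Set.univ u (u.1 + 14 * m, u.2) := by
  obtain ⟨u, v, hu, hv, h⟩ := h1
  obtain ⟨u2, v2', hu2, hv2, h2⟩ := h2
  obtain ⟨a1, b1, ha1, hb1, k1⟩ := v1
  obtain ⟨a2, b2, ha2, hb2, k2⟩ := v2
  have hm' : (1 : ℤ) ≤ m := by exact_mod_cast hm
  -- `u ~ a1`
  have e1 : Conn η Set.univ u a1 :=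
    windDet_meet h (by omega) (by omega) (by omega) k1 ha1 hb1
  -- `u2 ~ a1`, `u2 ~ a2`
  have e2 : Conn η Set.univ u2 a1 :=
    windDet_meet h2 (by omega) (by omega) (by omega) k1 ha1 hb1
  have e3 : Conn η Set.univ u2 a2 :=
    windDet_meet h2 (by omega) (by omega) (by omega) k2 ha2 hb2
  -- the translate of the first crossing
  have e4 : Conn η (rect (14 * m) (26 * m) 0 (5 * m)) (u.1 + 14 * m, u.2) (v.1 + 14 * m, v.2) := by
    have h3 : Conn (fun e => η (shiftE (14 * m, 0) e)) (rect 0 (12 * m) 0 (5 * m)) u v := by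
      have : (fun e => η (shiftE (14 * m, 0) e)) = η := funext hη
      rw [this]
      exact h
    rw [conn_shift] at h3
    have h4 : (u.1 + ((14 * m, 0) : Vert).1, u.2 + ((14 * m, 0) : Vert).2) =
        (u.1 + 14 * m, u.2) := by simp
    have h5 : (v.1 + ((14 * m, 0) : Vert).1, v.2 + ((14 * m, 0) : Vert).2) =
        (v.1 + 14 * m, v.2) := by simp
    rw [h4, h5] at h3
    refine h3.mono_set ?_
    intro w hw
    simp only [rect, Set.mem_ofPred_eq] at hw ⊢
    omega
  have e5 : Conn η Set.univ (u.1 + 14 * m, u.2) a2 :=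
    windDet_meet e4 (by simp only; omega) (by simp only; omega) (by omega) k2 ha2 hb2
  exact ⟨u, ((e1.trans e2.symm).trans e3).trans e5.symm⟩

/-- Reduction modulo `N`. -/
private def windDet_red (N : ℕ) (e : Edge) : Edge := (e.1 % N, e.2.1 % N, e.2.2)

private lemma windDet_mod {N : ℕ} {x y a b : ℤ} (hab : b - a < N) (hx : a ≤ x ∧ x ≤ b)
    (hy : a ≤ y ∧ y ≤ b) (h : x % N = y % N) : x = y := by
  have hd : (N : ℤ) ∣ x - y := Int.ModEq.dvd (Int.ModEq.symm h)
  have : x - y = 0 := by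
    apply Int.eq_zero_of_abs_lt_dvd hd
    rw [abs_lt]
    omega
  omega

private lemma windDet_injOn {N : ℕ} {a b c d : ℤ} (hab : b - a < N) (hcd : d - c < N) :
    Set.InjOn (windDet_red N) (eRect a b c d : Set Edge) := by
  rintro ⟨x, y, t⟩ h1 ⟨x', y', t'⟩ h2 h
  rw [Finset.mem_coe, mem_eRect] at h1 h2
  simp only [src, rect, Set.mem_ofPred_eq] at h1 h2
  simp only [windDet_red, Prod.mk.injEq] at h
  obtain ⟨h3, h4, h5⟩ := h
  rw [windDet_mod hab ⟨h1.1, h1.2.1⟩ ⟨h2.1, h2.2.1⟩ h3,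
    windDet_mod hcd ⟨h1.2.2.1, h1.2.2.2⟩ ⟨h2.2.2.1, h2.2.2.2⟩ h4, h5]

private lemma windDetc_injOn {N : ℕ} {a b c d : ℤ} (hab : b - a < N) (hcd : d - c < N) :
    Set.InjOn (fun e => windDet_red N (crossed e)) (eRect a b c d : Set Edge) := by
  rintro ⟨x, y, t⟩ h1 ⟨x', y', t'⟩ h2 h
  rw [Finset.mem_coe, mem_eRect] at h1 h2
  simp only [src, rect, Set.mem_ofPred_eq] at h1 h2
  cases t <;> cases t'
  · simp only [windDet_red, crossed, Prod.mk.injEq, Bool.false_eq_true, if_false] at h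
    have e1 := windDet_mod (a := a + 1) (b := b + 1) (by omega) (by omega) (by omega) h.1
    have e2 := windDet_mod hcd ⟨h1.2.2.1, h1.2.2.2⟩ ⟨h2.2.2.1, h2.2.2.2⟩ h.2.1
    simp only [Prod.mk.injEq, and_true]
    omega
  · simp [windDet_red, crossed] at h
  · simp [windDet_red, crossed] at h
  · simp only [windDet_red, crossed, Prod.mk.injEq, if_true] at h
    have e1 := windDet_mod hab ⟨h1.1, h1.2.1⟩ ⟨h2.1, h2.2.1⟩ h.1
    have e2 := windDet_mod (a := c + 1) (b := d + 1) (by omega) (by omega) (by omega) h.2.1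
    simp only [Prod.mk.injEq, and_true]
    omega

/-- Periodic configurations and rectangles which fit into the torus. -/
theorem Pr_per_hcross (q : I) {N : ℕ} {a b c d : ℤ} (hab : b - a < N) (hcd : d - c < N) :
    Pr q {ω | HCross (per N ω) a b c d} = Pr q {ω | HCross ω a b c d} :=
  Pr_comp (localOn_hcross a b c d) (windDet_injOn hab hcd)

theorem Pr_per_vcross (q : I) {N : ℕ} {a b c d : ℤ} (hab : b - a < N) (hcd : d - c < N) :
    Pr q {ω | VCross (per N ω) a b c d} = Pr q {ω | VCross ω a b c d} :=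
  Pr_comp (localOn_vcross a b c d) (windDet_injOn hab hcd)

theorem Pr_per_dual_hcross (q : I) {N : ℕ} {a b c d : ℤ} (hab : b - a < N) (hcd : d - c < N) :
    Pr q {ω | HCross (dual (per N ω)) a b c d} = Pr (σ q) {ω | HCross ω a b c d} :=
  Pr_comp_not (localOn_hcross a b c d) (windDetc_injOn hab hcd)

theorem Pr_per_dual_vcross (q : I) {N : ℕ} {a b c d : ℤ} (hab : b - a < N) (hcd : d - c < N) :
    Pr q {ω | VCross (dual (per N ω)) a b c d} = Pr (σ q) {ω | VCross ω a b c d} :=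
  Pr_comp_not (localOn_vcross a b c d) (windDetc_injOn hab hcd)

end Pool.Agent.H83.EX
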