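import Pool.Agent.H83.EX.StrongRSW
import Pool.Agent.H83.EX.WindDet
import Pool.Agent.H89.Perc.WindExcl
import Pool.Agent.H89.Perc.TorusSym

/-! # The winding probability above the characteristic length -/

open MeasureTheory ProbabilityTheory unitInterval

namespace Pool.Agent.H83.EX

open Pool.Agent.H89.Perc

private lemma wn_local_comp {s : Finset Edge} {A : Set Config} (hA : LocalOn s A)
    (φ : Edge → Edge) : LocalOn (s.image φ) {ω | (fun e => ω (φ e)) ∈ A} := by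
  intro ω ω' h hA'
  exact hA _ _ (fun e he => h _ (Finset.mem_image_of_mem φ he)) hA'

private lemma wn_local_comp_not {s : Finset Edge} {A : Set Config} (hA : LocalOn s A)
    (φ : Edge → Edge) : LocalOn (s.image φ) {ω | (fun e => !ω (φ e)) ∈ A} := by
  intro ω ω' h hA'
  exact hA _ _ (fun e he => by rw [h _ (Finset.mem_image_of_mem φ he)]) hA'

private lemma wn_decr_comp_not {A : Set Config} (hA : Incr A) (φ : Edge → Edge) :
    Incr {ω | (fun e => !ω (φ e)) ∈ A}ᶜ := by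
  intro ω ω' h h1 h2
  apply h1
  refine hA _ _ (fun e he => ?_) h2
  rw [Bool.not_eq_true'] at he ⊢
  by_contra hc
  rw [Bool.not_eq_false] at hc
  rw [h _ hc] at he
  exact absurd he (by decide)

private lemma wn_inter {p : I} {t : Finset Edge} {A B : Set Config} (hB : LocalOn t B) :
    Pr p A + Pr p B - 1 ≤ Pr p (A ∩ B) := by
  have h1 : A ⊆ (A ∩ B) ∪ Bᶜ := by
    intro ω h
    by_cases hb : ω ∈ B
    · exact Or.inl ⟨h, hb⟩
    · exact Or.inr hb
  have h2 := (Pr_mono (p := p) h1).trans Pr_union_le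
  rw [Pr_compl hB] at h2
  linarith

private lemma wn_per_shift (m : ℕ) (ω : Config) (e : Edge) :
    per (14 * m) ω (shiftE (14 * m, 0) e) = per (14 * m) ω e := by
  simp only [per, shiftE]
  have h1 : (e.1 + 14 * (m : ℤ)) % ((14 * m : ℕ) : ℤ) = e.1 % ((14 * m : ℕ) : ℤ) := by
    push_cast
    exact Int.add_emod_right _ _
  rw [h1, add_zero]

private lemma wn_dual_shift (m : ℕ) (ω : Config) (x y : ℤ) (b : Bool) :
    dual (per (14 * m) ω) (x, y + 14 * m, b) = dual (per (14 * m) ω) (x, y, b) := by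
  cases b
  · simp only [dual, crossed, per, Bool.false_eq_true, if_false]
    have h1 : (y + 14 * (m : ℤ)) % ((14 * m : ℕ) : ℤ) = y % ((14 * m : ℕ) : ℤ) := by
      push_cast
      exact Int.add_emod_right _ _
    rw [h1]
  · simp only [dual, crossed, per, if_true]
    have h1 : (y + 14 * (m : ℤ) + 1) % ((14 * m : ℕ) : ℤ) = (y + 1) % ((14 * m : ℕ) : ℤ) := by
      rw [show y + 14 * (m : ℤ) + 1 = y + 1 + 14 * (m : ℤ) by ring]
      push_cast
      exact Int.add_emod_right _ _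
    rw [h1]

theorem wind_near : ∀ η > (0 : ℝ), ∃ δ > (0 : ℝ), ∀ p : I, half ≤ p → ∀ m : ℕ, 1 ≤ m →
    1 - δ ≤ Pr p {ω | HCross ω 0 (4 * m) 0 (4 * m)} → 1 - η ≤ Pr p (Wind (14 * m)) := by
  intro η hη
  obtain ⟨δ, hδ, H⟩ := strong_rsw (η / 4) (by positivity)
  refine ⟨δ, hδ, fun p hp m hm h => ?_⟩
  have h0 := H p hp m hm h
  have hm' : (1 : ℤ) ≤ m := by exact_mod_cast hm
  have hN : ((14 * m : ℕ) : ℤ) = 14 * m := by push_cast; ring
  have q1 : 1 - η / 4 ≤ Pr p {ω | HCross ω 0 (12 * m) 0 (5 * m)} :=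
    h0.trans (Pr_mono fun ω h => HCross.mono h le_rfl (by omega) (by omega) le_rfl le_rfl)
  have q2 : 1 - η / 4 ≤ Pr p {ω | HCross ω 0 (5 * m) 0 (5 * m)} :=
    h0.trans (Pr_mono fun ω h => HCross.mono h le_rfl (by omega) (by omega) le_rfl le_rfl)
  have p1 : 1 - η / 4 ≤ Pr p {ω | HCross (per (14 * m) ω) 0 (12 * m) 0 (5 * m)} := by
    rw [Pr_per_hcross p (by omega) (by omega)]
    exact q1
  have p2 : 1 - η / 4 ≤ Pr p {ω | HCross (per (14 * m) ω) (7 * m) (19 * m) 0 (5 * m)} := by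
    rw [Pr_per_hcross p (by omega) (by omega)]
    have := Pr_hcross_translate (p := p) (a := 0) (b := 12 * (m : ℤ)) (c := 0)
      (d := 5 * (m : ℤ)) (7 * m) 0
    rw [show (0 : ℤ) + 7 * m = 7 * m by ring, show 12 * (m : ℤ) + 7 * m = 19 * m by ring,
      add_zero, add_zero] at this
    rw [this]
    exact q1
  have p3 : 1 - η / 4 ≤ Pr p {ω | VCross (per (14 * m) ω) (7 * m) (12 * m) 0 (5 * m)} := by
    rw [Pr_per_vcross p (by omega) (by omega), Pr_vcross_eq_hcross]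
    have := Pr_hcross_translate (p := p) (a := 0) (b := 5 * (m : ℤ)) (c := 0)
      (d := 5 * (m : ℤ)) 0 (7 * m)
    rw [show (0 : ℤ) + 7 * m = 7 * m by ring, show 5 * (m : ℤ) + 7 * m = 12 * m by ring,
      add_zero, add_zero] at this
    rw [this]
    exact q2
  have p4 : 1 - η / 4 ≤ Pr p {ω | VCross (per (14 * m) ω) (14 * m) (19 * m) 0 (5 * m)} := by
    rw [Pr_per_vcross p (by omega) (by omega), Pr_vcross_eq_hcross]
    have := Pr_hcross_translate (p := p) (a := 0) (b := 5 * (m : ℤ)) (c := 0)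
      (d := 5 * (m : ℤ)) 0 (14 * m)
    rw [show (0 : ℤ) + 14 * m = 14 * m by ring, show 5 * (m : ℤ) + 14 * m = 19 * m by ring,
      add_zero, add_zero] at this
    rw [this]
    exact q2
  have l2 : LocalOn _ {ω | HCross (per (14 * m) ω) (7 * m) (19 * m) 0 (5 * m)} :=
    wn_local_comp (localOn_hcross (7 * (m : ℤ)) (19 * m) 0 (5 * m))
      (fun e => (e.1 % ((14 * m : ℕ) : ℤ), e.2.1 % ((14 * m : ℕ) : ℤ), e.2.2))
  have l3 : LocalOn _ {ω | VCross (per (14 * m) ω) (7 * m) (12 * m) 0 (5 * m)} :=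
    wn_local_comp (localOn_vcross (7 * (m : ℤ)) (12 * m) 0 (5 * m))
      (fun e => (e.1 % ((14 * m : ℕ) : ℤ), e.2.1 % ((14 * m : ℕ) : ℤ), e.2.2))
  have l4 : LocalOn _ {ω | VCross (per (14 * m) ω) (14 * m) (19 * m) 0 (5 * m)} :=
    wn_local_comp (localOn_vcross (14 * (m : ℤ)) (19 * m) 0 (5 * m))
      (fun e => (e.1 % ((14 * m : ℕ) : ℤ), e.2.1 % ((14 * m : ℕ) : ℤ), e.2.2))
  have i2 := wn_inter (p := p) (A := {ω | HCross (per (14 * m) ω) 0 (12 * m) 0 (5 * m)}) l2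
  have i3 := wn_inter (p := p) (A := {ω | HCross (per (14 * m) ω) 0 (12 * m) 0 (5 * m)} ∩
    {ω | HCross (per (14 * m) ω) (7 * m) (19 * m) 0 (5 * m)}) l3
  have i4 := wn_inter (p := p) (A := ({ω | HCross (per (14 * m) ω) 0 (12 * m) 0 (5 * m)} ∩
    {ω | HCross (per (14 * m) ω) (7 * m) (19 * m) 0 (5 * m)}) ∩
    {ω | VCross (per (14 * m) ω) (7 * m) (12 * m) 0 (5 * m)}) l4
  have hsub : (({ω | HCross (per (14 * m) ω) 0 (12 * m) 0 (5 * m)} ∩
    {ω | HCross (per (14 * m) ω) (7 * m) (19 * m) 0 (5 * m)}) ∩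
    {ω | VCross (per (14 * m) ω) (7 * m) (12 * m) 0 (5 * m)}) ∩
    {ω | VCross (per (14 * m) ω) (14 * m) (19 * m) 0 (5 * m)} ⊆ Wind (14 * m) := by
    rintro ω ⟨⟨⟨k1, k2⟩, k3⟩, k4⟩
    obtain ⟨u, hu⟩ := wind_det hm (η := per (14 * m) ω) (wn_per_shift m ω) k1 k2 k3 k4
    refine ⟨u, 1, 0, one_ne_zero, ?_⟩
    rw [one_mul, zero_mul, add_zero, hN]
    exact hu
  have := Pr_mono (p := p) hsub
  linarith

private lemma wn_hcross_half {c : ℝ} (H : ∀ m : ℕ, 1 ≤ m →
    c ≤ Pr half {ω | HCross ω 0 (4 * m) 0 m}) {m : ℕ} (hm : 1 ≤ m) (x y a : ℤ) (ha : 0 ≤ a)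
    (ha' : a ≤ 20 * m) : c ≤ Pr half {ω | HCross ω x (a + x) y (5 * m + y)} := by
  have h1 := H (5 * m) (by omega)
  have h2 := Pr_hcross_translate (p := half) (a := 0) (b := a) (c := 0) (d := 5 * (m : ℤ)) x y
  rw [zero_add, zero_add] at h2
  rw [h2]
  refine h1.trans (Pr_mono fun ω h => HCross.mono h le_rfl ha ?_ le_rfl ?_)
  · push_cast; omega
  · push_cast; omega

private lemma wn_decr_inter {A B : Set Config} (iA : Incr Aᶜ) (iB : Incr Bᶜ) :
    Incr (A ∩ B)ᶜ := by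
  rw [Set.compl_inter]
  exact iA.union iB

private lemma wn_fkg4_decr {q : I} {s1 s2 s3 s4 : Finset Edge} {A B C D : Set Config}
    (lA : LocalOn s1 A) (lB : LocalOn s2 B) (lC : LocalOn s3 C) (lD : LocalOn s4 D)
    (iA : Incr Aᶜ) (iB : Incr Bᶜ) (iC : Incr Cᶜ) (iD : Incr Dᶜ) :
    (Pr q A * Pr q B) * (Pr q C * Pr q D) ≤ Pr q ((A ∩ B) ∩ (C ∩ D)) := by
  classical
  have h1 := fkg_decr (p := q) lA lB iA iB
  have h2 := fkg_decr (p := q) lC lD iC iD
  have h3 := fkg_decr (p := q) (lA.inter' lB) (lC.inter' lD) (wn_decr_inter iA iB)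
    (wn_decr_inter iC iD)
  calc (Pr q A * Pr q B) * (Pr q C * Pr q D)
      ≤ Pr q (A ∩ B) * Pr q (C ∩ D) :=
        mul_le_mul h1 h2 (mul_nonneg Pr_nonneg Pr_nonneg) Pr_nonneg
    _ ≤ _ := h3

private lemma wn_pow4 {x a b c d : ℝ} (hx : 0 ≤ x) (ha : x ≤ a) (hb : x ≤ b) (hc : x ≤ c)
    (hd : x ≤ d) : x ^ 4 ≤ (a * b) * (c * d) := by
  have h1 : x * x ≤ a * b := mul_le_mul ha hb hx (hx.trans ha)
  have h2 : x * x ≤ c * d := mul_le_mul hc hd hx (hx.trans hc)
  calc x ^ 4 = (x * x) * (x * x) := by ring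
    _ ≤ (a * b) * (c * d) := mul_le_mul h1 h2 (mul_nonneg hx hx) ((mul_nonneg hx hx).trans h1)

theorem wind_half : ∃ c > (0 : ℝ), ∀ m : ℕ, 1 ≤ m → Pr half (Wind (14 * m)) ≤ 1 - c := by
  obtain ⟨c, hc, H⟩ := rsw
  refine ⟨c ^ 4, by positivity, fun m hm => ?_⟩
  have hm' : (1 : ℤ) ≤ m := by exact_mod_cast hm
  have hN : ((14 * m : ℕ) : ℤ) = 14 * m := by push_cast; ring
  set φ : Edge → Edge := fun e =>
    ((crossed e).1 % ((14 * m : ℕ) : ℤ), (crossed e).2.1 % ((14 * m : ℕ) : ℤ), (crossed e).2.2)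
    with hφ
  have p1 : c ≤ Pr half {ω | VCross (dual (per (14 * m) ω)) 0 (5 * m) 0 (12 * m)} := by
    rw [Pr_per_dual_vcross half (by omega) (by omega), rsw_symm_half, Pr_vcross_eq_hcross]
    have := wn_hcross_half H hm 0 0 (12 * m) (by omega) (by omega)
    simpa using this
  have p2 : c ≤ Pr half {ω | VCross (dual (per (14 * m) ω)) 0 (5 * m) (7 * m) (19 * m)} := by
    rw [Pr_per_dual_vcross half (by omega) (by omega), rsw_symm_half, Pr_vcross_eq_hcross]
    have := wn_hcross_half H hm (7 * m) 0 (12 * m) (by omega) (by omega)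
    rw [show 12 * (m : ℤ) + 7 * m = 19 * m by ring, add_zero] at this
    exact this
  have p3 : c ≤ Pr half {ω | HCross (dual (per (14 * m) ω)) 0 (5 * m) (7 * m) (12 * m)} := by
    rw [Pr_per_dual_hcross half (by omega) (by omega), rsw_symm_half]
    have := wn_hcross_half H hm 0 (7 * m) (5 * m) (by omega) (by omega)
    rw [show 5 * (m : ℤ) + 7 * m = 12 * m by ring, add_zero] at this
    exact this
  have p4 : c ≤ Pr half {ω | HCross (dual (per (14 * m) ω)) 0 (5 * m) (14 * m) (19 * m)} := by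
    rw [Pr_per_dual_hcross half (by omega) (by omega), rsw_symm_half]
    have := wn_hcross_half H hm 0 (14 * m) (5 * m) (by omega) (by omega)
    rw [show 5 * (m : ℤ) + 14 * m = 19 * m by ring, add_zero] at this
    exact this
  have key := wn_fkg4_decr (q := half)
    (wn_local_comp_not (localOn_vcross 0 (5 * (m : ℤ)) 0 (12 * m)) φ)
    (wn_local_comp_not (localOn_vcross 0 (5 * (m : ℤ)) (7 * m) (19 * m)) φ)
    (wn_local_comp_not (localOn_hcross 0 (5 * (m : ℤ)) (7 * m) (12 * m)) φ)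
    (wn_local_comp_not (localOn_hcross 0 (5 * (m : ℤ)) (14 * m) (19 * m)) φ)
    (wn_decr_comp_not (incr_vcross 0 (5 * (m : ℤ)) 0 (12 * m)) φ)
    (wn_decr_comp_not (incr_vcross 0 (5 * (m : ℤ)) (7 * m) (19 * m)) φ)
    (wn_decr_comp_not (incr_hcross 0 (5 * (m : ℤ)) (7 * m) (12 * m)) φ)
    (wn_decr_comp_not (incr_hcross 0 (5 * (m : ℤ)) (14 * m) (19 * m)) φ)
  have key2 := (wn_pow4 hc.le p1 p2 p3 p4).trans key
  have h5 : Pr half (Wind (14 * m))ᶜ = 1 - Pr half (Wind (14 * m)) :=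
    Pr_compl (localOn_wind (N := 14 * m) (by omega))
  have h6 : c ^ 4 ≤ Pr half (Wind (14 * m))ᶜ := by
    refine key2.trans (Pr_mono ?_)
    rintro ω ⟨⟨k1, k2⟩, ⟨k3, k4⟩⟩ hW
    have k1' : VCross (dual (per (14 * m) ω)) 0 (5 * m) 0 (12 * m) := k1
    have k2' : VCross (dual (per (14 * m) ω)) 0 (5 * m) (7 * m) (19 * m) := k2
    have k3' : HCross (dual (per (14 * m) ω)) 0 (5 * m) (7 * m) (12 * m) := k3
    have k4' : HCross (dual (per (14 * m) ω)) 0 (5 * m) (14 * m) (19 * m) := k4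
    set η : Config := dual (per (14 * m) ω) with hη
    set ζ : Config := fun e => η (swapE e) with hζ
    have hsw : ∀ e, η e = (fun f => ζ (swapE f)) e := by
      intro e
      simp only [hζ, swapE_swapE]
    have hsw' : η = fun f => ζ (swapE f) := funext hsw
    have r1 : HCross ζ 0 (12 * m) 0 (5 * m) := by
      rw [← vcross_swap, ← hsw']
      exact k1'
    have r2 : HCross ζ (7 * m) (19 * m) 0 (5 * m) := by
      rw [← vcross_swap, ← hsw']
      exact k2'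
    have r3 : VCross ζ (7 * m) (12 * m) 0 (5 * m) := by
      rw [hζ, vcross_swap]
      exact k3'
    have r4 : VCross ζ (14 * m) (19 * m) 0 (5 * m) := by
      rw [hζ, vcross_swap]
      exact k4'
    have hinv : ∀ e, ζ (shiftE (14 * m, 0) e) = ζ e := by
      rintro ⟨x, y, b⟩
      simp only [hζ, hη, swapE, shiftE, add_zero]
      exact wn_dual_shift m ω y x (!b)
    obtain ⟨u, hu⟩ := wind_det hm (η := ζ) hinv r1 r2 r3 r4
    rw [hζ, conn_swap] at hu
    refine wind_exclusion (N := 14 * m) (by omega) hW (u.2, u.1) ?_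
    rw [hN]
    exact hu.mono_set (Set.subset_univ _)
  linarith

/-- The winding probability has increased by a constant at a good scale. -/
theorem wind_gap : ∃ δ > (0 : ℝ), ∃ c > (0 : ℝ), ∀ p : I, half ≤ p → ∀ m : ℕ, 1 ≤ m →
    1 - δ ≤ Pr p {ω | HCross ω 0 (4 * m) 0 (4 * m)} →
    c ≤ Pr p (Wind (14 * m)) - Pr half (Wind (14 * m)) := by
  obtain ⟨c, hc, h1⟩ := wind_half
  obtain ⟨δ, hδ, h2⟩ := wind_near (c / 2) (by positivity)
  refine ⟨δ, hδ, c / 2, by positivity, fun p hp m hm h => ?_⟩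
  have h3 := h1 m hm
  have h4 := h2 p hp m hm h
  linarith

end Pool.Agent.H83.EX
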