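import Pool.Agent.H83.EX.StrongRSW
import Pool.Agent.H83.EX.WeakRSW
import Pool.Agent.H83.EX.WindNear
import Pool.Agent.H83.EX.SigmaUpper
import Pool.Agent.H57.LF.Final

/-! # Good scales: percolation probability and mean cluster size -/

open MeasureTheory ProbabilityTheory unitInterval
open scoped ENNReal

namespace Pool.Agent.H83.EX

open Pool.Agent.H89.Perc

/-- The square of side `4 m` is crossed with probability at least `1 - δ`. -/
def Good (δ : ℝ) (p : I) (m : ℕ) : Prop := 1 - δ ≤ Pr p {ω | HCross ω 0 (4 * m) 0 (4 * m)}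

/-- At a good scale the percolation probability is comparable to the one-arm probability and the
mean cluster size at the dual density is bounded. -/
theorem good_scale : ∃ δ > (0 : ℝ), ∃ c > (0 : ℝ), ∃ C > (0 : ℝ), ∀ p : I, half ≤ p → ∀ m : ℕ,
    1 ≤ m → Good δ p m → c * arm p m ≤ theta p ∧
      Pool.Agent.H85.Gamma.sigma (σ p) ≤ ENNReal.ofReal (C * (m : ℝ) ^ 2 * arm half m ^ 2) := by
  obtain ⟨ε₁, hε₁, c, hc, H1⟩ := Pool.Agent.H57.LF.fs
  obtain ⟨ε₂, hε₂, C, hC, H2⟩ := sigma_upper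
  obtain ⟨δ, hδ, H3⟩ := strong_rsw (min ε₁ (ε₂ / 4)) (lt_min hε₁ (by positivity))
  refine ⟨δ, hδ, c, hc, C, hC, fun p hp m hm h => ?_⟩
  have h1 := H3 p hp m hm h
  have h2 : Pr p {ω | HCross ω 0 (16 * m) 0 (5 * m)} ≤
      Pr p {ω | HCross ω m (16 * m) (-m) (4 * m)} := by
    have e := Pr_hcross_translate (p := p) (a := (0 : ℤ)) (b := 16 * (m : ℤ)) (c := 0)
      (d := 5 * (m : ℤ)) 0 (-(m : ℤ))
    rw [← e]
    refine Pr_mono ?_
    intro ω h
    simp only [Set.mem_ofPred_eq] at h ⊢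
    have hm' : (1 : ℤ) ≤ m := by exact_mod_cast hm
    exact HCross.mono h (by omega) (by omega) (by omega) (by omega) (by omega)
  have h3 := h1.trans h2
  refine ⟨H1 p hp m hm (le_trans (by linarith [min_le_left ε₁ (ε₂ / 4)]) h3), ?_⟩
  have h4 := Pool.Agent.H57.LF.fs_annulus (p := p) hm
  refine H2 (σ p) ?_ m hm (by linarith [min_le_right ε₁ (ε₂ / 4)])
  have h5 : (1 / 2 : ℝ) ≤ p := hp
  change (1 : ℝ) - p ≤ 1 / 2
  linarith

end Pool.Agent.H83.EX
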