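import Pool.Agent.H89.Perc.FKG

/-! # The square-root trick -/

open MeasureTheory ProbabilityTheory unitInterval

namespace Pool.Agent.H83.EX

open Pool.Agent.H89.Perc

theorem Sqrt_aux {p : I} {ι : Type*} (A : ι → Set Config)
    (s : ι → Finset Edge) : ∀ F : Finset ι, (∀ i ∈ F, LocalOn (s i) (A i)) →
    (∀ i ∈ F, Incr (A i)) → (∃ t : Finset Edge, LocalOn t (⋂ i ∈ F, (A i)ᶜ)) ∧
      Incr (⋂ i ∈ F, (A i)ᶜ)ᶜ ∧ ∏ i ∈ F, (1 - Pr p (A i)) ≤ Pr p (⋂ i ∈ F, (A i)ᶜ) := by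
  classical
  intro F
  induction F using Finset.induction_on with
  | empty =>
    intro _ _
    refine ⟨⟨∅, ?_⟩, ?_, ?_⟩
    · intro ω ω' _ _
      simp
    · intro ω ω' _ h
      simp at h
    · simp only [Finset.notMem_empty, Set.iInter_of_empty, Set.iInter_univ, Finset.prod_empty]
      rw [Pr_univ]
  | insert i F hi ih =>
    intro hA iA
    obtain ⟨⟨t, ht⟩, hinc, hle⟩ := ih (fun j hj => hA j (Finset.mem_insert_of_mem hj))
      (fun j hj => iA j (Finset.mem_insert_of_mem hj))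
    have hAi := hA i (Finset.mem_insert_self i F)
    have iAi := iA i (Finset.mem_insert_self i F)
    have hset : (⋂ j ∈ insert i F, (A j)ᶜ) = (A i)ᶜ ∩ ⋂ j ∈ F, (A j)ᶜ := by
      ext ω
      simp only [Set.mem_iInter, Set.mem_inter_iff, Finset.mem_insert, forall_eq_or_imp]
    have hAc : LocalOn (s i) (A i)ᶜ := hAi.compl
    rw [hset]
    refine ⟨⟨s i ∪ t, (hAc.mono Finset.subset_union_left).inter (ht.mono Finset.subset_union_right)⟩,
      ?_, ?_⟩
    · rw [Set.compl_inter, compl_compl]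
      intro ω ω' h hω
      rcases hω with hω | hω
      · exact Or.inl (iAi ω ω' h hω)
      · exact Or.inr (hinc ω ω' h hω)
    · rw [Finset.prod_insert hi]
      have h1 : 1 - Pr p (A i) = Pr p (A i)ᶜ := (Pr_compl hAi).symm
      rw [h1]
      calc Pr p (A i)ᶜ * ∏ j ∈ F, (1 - Pr p (A j)) ≤ Pr p (A i)ᶜ * Pr p (⋂ j ∈ F, (A j)ᶜ) :=
            mul_le_mul_of_nonneg_left hle Pr_nonneg
        _ ≤ _ := fkg_decr hAc ht (by rw [compl_compl]; exact iAi) hinc

theorem sqrt_trick {p : I} {ι : Type*} (F : Finset ι) (hF : F.Nonempty) (A : ι → Set Config)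
    (s : ι → Finset Edge) (hA : ∀ i ∈ F, LocalOn (s i) (A i)) (iA : ∀ i ∈ F, Incr (A i))
    {B : Set Config} (hB : B ⊆ ⋃ i ∈ F, A i) {δ : ℝ} (hδ : 0 ≤ δ) (h : 1 - δ ≤ Pr p B) :
    ∃ i ∈ F, 1 - δ ^ ((1 : ℝ) / F.card) ≤ Pr p (A i) := by
  obtain ⟨⟨t, ht⟩, -, hle⟩ := Sqrt_aux (p := p) A s F hA iA
  have h1 : Pr p (⋂ i ∈ F, (A i)ᶜ) ≤ δ := by
    have h2 : B ⊆ (⋂ i ∈ F, (A i)ᶜ)ᶜ := by
      intro ω hω
      obtain ⟨i, hi, hωi⟩ := Set.mem_iUnion₂.1 (hB hω)
      intro hcon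
      exact Set.mem_iInter₂.1 hcon i hi hωi
    have h3 := Pr_mono (p := p) h2
    rw [Pr_compl ht] at h3
    linarith
  have h2 := hle.trans h1
  by_contra hcon
  push Not at hcon
  have hx0 : 0 ≤ δ ^ ((1 : ℝ) / F.card) := Real.rpow_nonneg hδ _
  have hxc : (δ ^ ((1 : ℝ) / F.card)) ^ F.card = δ := by
    rw [one_div]
    exact Real.rpow_inv_natCast_pow hδ (Finset.card_pos.2 hF).ne'
  have hf : ∀ i ∈ F, δ ^ ((1 : ℝ) / F.card) < 1 - Pr p (A i) := by
    intro i hi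
    have := hcon i hi
    linarith
  have h3 : (δ ^ ((1 : ℝ) / F.card)) ^ F.card < ∏ i ∈ F, (1 - Pr p (A i)) := by
    rcases hx0.eq_or_lt with h0 | h0
    · rw [← h0, zero_pow (Finset.card_pos.2 hF).ne']
      exact Finset.prod_pos fun i hi => by
        have := hf i hi
        linarith
    · rw [← Finset.prod_const]
      exact Finset.prod_lt_prod_of_nonempty (fun i _ => h0) hf hF
  rw [hxc] at h3
  linarith

end Pool.Agent.H83.EX
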