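import Pool.Agent.H83.EX.Double
import Pool.Agent.H83.EX.DualSmall

/-! # If the squares are crossed with probability close to one, so are the long rectangles -/

open MeasureTheory ProbabilityTheory unitInterval

namespace Pool.Agent.H83.EX

open Pool.Agent.H89.Perc

/-- One doubling step. -/
private theorem Strong_step : ∀ η > (0 : ℝ), ∃ δ > (0 : ℝ), ∃ K : ℕ, 1 ≤ K ∧ ∀ p : I, half ≤ p →
    ∀ (m w r : ℕ) (c d : ℤ), r = m / 4 → K ≤ r → r ≤ w → c ≤ d → d - c ≤ 5 * m →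
    1 - δ ≤ Pr p {ω | HCross ω 0 w c d} →
    1 - η ≤ Pr p {ω | HCross ω 0 (2 * w) (c - r) (d + r)} := by
  intro η hη
  obtain ⟨K0, hK0, H⟩ := dArm_small (η / 2) (by positivity)
  refine ⟨(η / 4) ^ (80 * max K0 2), by positivity, max K0 2, by omega, ?_⟩
  intro p hp m w r c d hr hKr hrw hcd hdc h
  obtain ⟨K, hK⟩ : ∃ K, K = max K0 2 := ⟨_, rfl⟩
  rw [← hK] at hKr h
  have hK2 : 2 ≤ K := by omega
  have hKK : K0 ≤ K := by omega
  obtain ⟨s, hs⟩ : ∃ s, s = r / K := ⟨_, rfl⟩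
  have hs1 : 1 ≤ s := by
    rw [hs]
    exact (Nat.one_le_div_iff (by omega)).2 hKr
  have hKs : K * s ≤ r := by
    rw [hs]
    exact Nat.mul_div_le r K
  have hK0s : K0 * s ≤ r := le_trans (Nat.mul_le_mul_right s hKK) hKs
  have h2s : 2 * s ≤ K * s := Nat.mul_le_mul_right s hK2
  have hsr : s < r := by omega
  have hrs : r < K * (s + 1) := by
    rw [hs]
    have := Nat.lt_mul_div_succ r (show 0 < K by omega)
    exact this
  have hrs2 : r < 2 * (K * s) := by
    have h1 : K * (s + 1) ≤ K * (2 * s) := Nat.mul_le_mul_left K (by omega)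
    have h2 : K * (2 * s) = 2 * (K * s) := by ring
    omega
  have hm : m < 8 * (2 * (K * s)) := by omega
  have hlen : d - c < ((80 * K : ℕ) : ℤ) * (2 * (s : ℤ) + 1) := by
    have h1 : ((80 * K : ℕ) : ℤ) * (2 * (s : ℤ) + 1) = 160 * ((K : ℤ) * s) + 80 * K := by
      push_cast
      ring
    have h2 : (m : ℤ) < 8 * (2 * ((K : ℤ) * s)) := by exact_mod_cast hm
    rw [h1]
    omega
  have h1 := double_cross (p := p) hsr hrw hcd (show 1 ≤ 80 * K by omega) hlen
    (by positivity : (0 : ℝ) ≤ (η / 4) ^ (80 * K)) h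
  have h2 := H s r hs1 hK0s p hp
  have h3 : ((η / 4) ^ (80 * K)) ^ ((1 : ℝ) / ((80 * K : ℕ) : ℝ)) = η / 4 := by
    rw [one_div]
    exact Real.pow_rpow_inv_natCast (by positivity) (by omega)
  rw [h3] at h1
  linarith

/-- All scales above a constant. -/
private theorem Strong_large : ∀ η > (0 : ℝ), ∃ δ > (0 : ℝ), ∃ m0 : ℕ, ∀ p : I, half ≤ p →
    ∀ m : ℕ, m0 ≤ m → 1 - δ ≤ Pr p {ω | HCross ω 0 (4 * m) 0 (4 * m)} →
    1 - η ≤ Pr p {ω | HCross ω 0 (16 * m) 0 (5 * m)} := by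
  intro η hη
  obtain ⟨δ2, hδ2, K2, hK2, H2⟩ := Strong_step η hη
  obtain ⟨δ1, hδ1, K1, hK1, H1⟩ := Strong_step δ2 hδ2
  refine ⟨δ1, hδ1, 4 * (K1 + K2), ?_⟩
  intro p hp m hm h
  obtain ⟨r, hr⟩ : ∃ r, r = m / 4 := ⟨_, rfl⟩
  have h1 := H1 p hp m (4 * m) r 0 (4 * m) hr (by omega) (by omega) (by omega) (by omega)
    (by push_cast; exact h)
  have h2 := H2 p hp m (8 * m) r (0 - r) (4 * m + r) hr (by omega) (by omega) (by omega) (by omega)
    (by
      have e1 : ((8 * m : ℕ) : ℤ) = 2 * ((4 * m : ℕ) : ℤ) := by push_cast; ring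
      rw [e1]
      exact h1)
  have h3 := Pr_hcross_translate (p := p) (a := 0) (b := 2 * ((8 * m : ℕ) : ℤ))
    (c := (0 - r) - r) (d := (4 * m + r) + r) 0 (2 * r)
  rw [← h3] at h2
  refine h2.trans (Pr_mono fun ω hω => ?_)
  refine HCross.mono hω (by omega) (by omega) (by push_cast; omega) (by omega) (by omega)

private theorem Strong_localOn (e : Edge) : LocalOn {e} {ω : Config | ω e = true} := by
  intro ω ω' h hA
  have : ω e = ω' e := h e (by simp)
  simp only [Set.mem_ofPred_eq] at hA ⊢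
  rw [← this]
  exact hA

private theorem Strong_incr (e : Edge) : Incr {ω : Config | ω e = true} := fun _ _ h hA => h e hA

private theorem Strong_edge {p : I} (e e' : Edge) :
    Pr p {ω | ω e = true} = Pr p {ω | ω e' = true} := by
  have h := Pr_comp (p := p) (Strong_localOn e) (φ := fun _ => e')
    (by simp)
  rw [← h]
  rfl

/-- A crossing of a square uses an open edge of the first column. -/
private theorem Strong_first {m : ℕ} (hm : 1 ≤ m) :
    {ω | HCross ω 0 (4 * m) 0 (4 * m)} ⊆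
      ⋃ j ∈ Finset.range (4 * m + 1), {ω : Config | ω (0, (j : ℤ), false) = true} := by
  rintro ω ⟨u, v, hu, hv, hc⟩
  obtain ⟨a, b, ha, hb, h, -⟩ := Conn.exists_exit hc (T := {z : Vert | z.1 ≤ 0})
    (by simp only [Set.mem_ofPred_eq]; omega) (by simp only [Set.mem_ofPred_eq]; omega)
  have h1 : a.1 ≤ 0 := ha.mem_right.2
  obtain ⟨ha1, -, ha3, ha4⟩ := hb.1
  simp only [Set.mem_ofPred_eq, not_le] at h
  obtain ⟨-, -, e, he, ho⟩ := hb
  have h0 : a.1 = 0 := le_antisymm h1 ha1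
  have hee : e = (0, a.2, false) := by
    obtain ⟨x, y, t⟩ := e
    rcases he with ⟨e1, e2⟩ | ⟨e1, e2⟩
    · subst e1 e2
      cases t
      · simp only [src] at h0 ⊢
        rw [h0]
      · simp only [src, tgt] at h0 h
        simp at h
        omega
    · subst e1 e2
      cases t
      · simp only [src, tgt] at h0 h
        simp at h0
        omega
      · simp only [src, tgt] at h0 h
        simp at h0
        omega
  obtain ⟨j, hj⟩ := Int.eq_ofNat_of_zero_le ha3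
  simp only [Set.mem_iUnion]
  refine ⟨j, Finset.mem_range.2 (by omega), ?_⟩
  rw [Set.mem_ofPred_eq, ← hj, ← hee]
  exact ho

/-- An open row. -/
private theorem Strong_row {m : ℕ} {ω : Config}
    (h : ∀ i ∈ Finset.range (16 * m), ω ((i : ℤ), 0, false) = true) :
    HCross ω 0 (16 * m) 0 (5 * m) := by
  have key : ∀ i : ℕ, i ≤ 16 * m → Conn ω (rect 0 (16 * m) 0 (5 * m)) (0, 0) ((i : ℤ), 0) := by
    intro i
    induction i with
    | zero =>
      intro _
      refine Conn.refl ⟨le_rfl, ?_, le_rfl, ?_⟩ <;> simp only <;> omega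
    | succ i ih =>
      intro hi
      have h1 := ih (by omega)
      refine h1.tail ⟨h1.mem_right, ⟨?_, ?_, ?_, ?_⟩, ((i : ℤ), 0, false), Or.inl ⟨rfl, ?_⟩,
        h i (Finset.mem_range.2 (by omega))⟩
      · simp only; omega
      · simp only; omega
      · simp only; omega
      · simp only; omega
      · simp [tgt]
  refine ⟨(0, 0), (((16 * m : ℕ) : ℤ), 0), rfl, ?_, key _ le_rfl⟩
  push_cast
  rfl

/-- All scales below a constant. -/
private theorem Strong_small : ∀ η > (0 : ℝ), ∀ m0 : ℕ, ∃ δ > (0 : ℝ), ∀ p : I,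
    ∀ m : ℕ, 1 ≤ m → m ≤ m0 → 1 - δ ≤ Pr p {ω | HCross ω 0 (4 * m) 0 (4 * m)} →
    1 - η ≤ Pr p {ω | HCross ω 0 (16 * m) 0 (5 * m)} := by
  intro η hη m0
  obtain ⟨ε, hε⟩ : ∃ ε : ℝ, ε = min 1 (η / (16 * m0 + 1)) := ⟨_, rfl⟩
  have hε0 : 0 < ε := by
    rw [hε]
    exact lt_min one_pos (by positivity)
  have hε1 : ε ≤ 1 := by rw [hε]; exact min_le_left _ _
  have hεη : ε * (16 * m0 + 1) ≤ η := by
    rw [← le_div_iff₀ (by positivity), hε]
    exact min_le_right _ _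
  refine ⟨ε ^ (4 * m0 + 1), by positivity, ?_⟩
  intro p m hm hmm h
  have hne : (Finset.range (4 * m + 1)).Nonempty := Finset.nonempty_range_iff.2 (by omega)
  obtain ⟨j, hj, h1⟩ := sqrt_trick (p := p) (Finset.range (4 * m + 1)) hne
    (fun j : ℕ => {ω : Config | ω (0, (j : ℤ), false) = true})
    (fun j : ℕ => {((0 : ℤ), (j : ℤ), false)}) (fun j _ => Strong_localOn _)
    (fun j _ => Strong_incr _) (Strong_first hm)
    (by positivity : (0 : ℝ) ≤ ε ^ (4 * m0 + 1)) h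
  rw [Finset.card_range] at h1
  have h2 : (ε ^ (4 * m0 + 1)) ^ ((1 : ℝ) / ((4 * m + 1 : ℕ) : ℝ)) ≤ ε := by
    have h3 : ε ^ (4 * m0 + 1) ≤ ε ^ (4 * m + 1) :=
      pow_le_pow_of_le_one hε0.le hε1 (by omega)
    have h4 : (ε ^ (4 * m + 1)) ^ ((1 : ℝ) / ((4 * m + 1 : ℕ) : ℝ)) = ε := by
      rw [one_div]
      exact Real.pow_rpow_inv_natCast hε0.le (by omega)
    calc (ε ^ (4 * m0 + 1)) ^ ((1 : ℝ) / ((4 * m + 1 : ℕ) : ℝ))
        ≤ (ε ^ (4 * m + 1)) ^ ((1 : ℝ) / ((4 * m + 1 : ℕ) : ℝ)) :=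
          Real.rpow_le_rpow (by positivity) h3 (by positivity)
      _ = ε := h4
  have h5 : ∀ e : Edge, 1 - ε ≤ Pr p {ω : Config | ω e = true} := by
    intro e
    rw [Strong_edge e (0, (j : ℤ), false)]
    linarith
  have h6 : ({ω | HCross ω 0 (16 * m) 0 (5 * m)} : Set Config)ᶜ ⊆
      ⋃ i ∈ Finset.range (16 * m), ({ω : Config | ω ((i : ℤ), 0, false) = true} : Set Config)ᶜ := by
    intro ω hω
    by_contra hcon
    apply hω
    refine Strong_row fun i hi => ?_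
    by_contra hne
    apply hcon
    simp only [Set.mem_iUnion]
    exact ⟨i, hi, hne⟩
  have h7 := (Pr_mono (p := p) h6).trans (Pr_biUnion_le _ _)
  rw [Pr_compl (localOn_hcross _ _ _ _)] at h7
  have h8 : ∑ i ∈ Finset.range (16 * m),
      Pr p ({ω : Config | ω ((i : ℤ), 0, false) = true} : Set Config)ᶜ ≤
      ∑ _i ∈ Finset.range (16 * m), ε := by
    refine Finset.sum_le_sum fun i _ => ?_
    rw [Pr_compl (Strong_localOn _)]
    linarith [h5 ((i : ℤ), 0, false)]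
  rw [Finset.sum_const, Finset.card_range, nsmul_eq_mul] at h8
  have h9 : ((16 * m : ℕ) : ℝ) * ε ≤ ε * (16 * m0 + 1) := by
    have : ((16 * m : ℕ) : ℝ) ≤ 16 * m0 + 1 := by
      push_cast
      have : (m : ℝ) ≤ m0 := by exact_mod_cast hmm
      linarith
    nlinarith
  linarith

theorem strong_rsw : ∀ η > (0 : ℝ), ∃ δ > (0 : ℝ), ∀ p : I, half ≤ p → ∀ m : ℕ, 1 ≤ m →
    1 - δ ≤ Pr p {ω | HCross ω 0 (4 * m) 0 (4 * m)} →
    1 - η ≤ Pr p {ω | HCross ω 0 (16 * m) 0 (5 * m)} := by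
  intro η hη
  obtain ⟨δ1, hδ1, m0, H1⟩ := Strong_large η hη
  obtain ⟨δ2, hδ2, H2⟩ := Strong_small η hη m0
  refine ⟨min δ1 δ2, lt_min hδ1 hδ2, ?_⟩
  intro p hp m hm h
  rcases le_total m0 m with h1 | h1
  · exact H1 p hp m h1 (by linarith [min_le_left δ1 δ2])
  · exact H2 p m hm h1 (by linarith [min_le_right δ1 δ2])

end Pool.Agent.H83.EX
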